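import Pool.Agent.Lib.MP_7f581e_Z.EPL.WeakAux

/-!
# Package EP-l, module LMain: the assembly of the step for `ℓ ≠ p`
-/

set_option autoImplicit false

namespace MP7Z.EPL

namespace LMainAux

/-- The homomorphism from the cyclic group of order `ℓ` onto the powers of `a`. -/
def kap {E : Type} [Group E] {ℓ : ℕ} [NeZero ℓ] (a : E) (ha : a ^ ℓ = 1) :
    Multiplicative (ZMod ℓ) →* E where
  toFun c := a ^ (Multiplicative.toAdd c).val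
  map_one' := by
    change a ^ (0 : ZMod ℓ).val = 1
    rw [ZMod.val_zero, pow_zero]
  map_mul' c d := by
    change a ^ (Multiplicative.toAdd c + Multiplicative.toAdd d).val = _
    rw [ZMod.val_add, ← pow_eq_pow_mod _ ha, pow_add]

theorem kap_ne_one {E : Type} [Group E] {ℓ : ℕ} [NeZero ℓ] (hℓ : ℓ.Prime) (a : E)
    (ha : a ^ ℓ = 1) (ha1 : a ≠ 1) {c : Multiplicative (ZMod ℓ)} (hc : c ≠ 1) :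
    kap a ha c ≠ 1 := by
  have hF : Fact ℓ.Prime := ⟨hℓ⟩
  intro h
  have h1 : a ^ (Multiplicative.toAdd c).val = 1 := h
  have h2 := orderOf_dvd_of_pow_eq_one h1
  rw [orderOf_eq_prime ha ha1] at h2
  have h3 : (Multiplicative.toAdd c).val < ℓ := ZMod.val_lt _
  have h4 : (Multiplicative.toAdd c).val = 0 := Nat.eq_zero_of_dvd_of_lt h2 h3
  rw [ZMod.val_eq_zero] at h4
  exact hc h4

theorem map_kap {E G : Type} [Group E] [Group G] (f : E →* G) {ℓ : ℕ} [NeZero ℓ] (a : E)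
    (ha : a ^ ℓ = 1) (haf : a ∈ f.ker) (c : Multiplicative (ZMod ℓ)) : f (kap a ha c) = 1 := by
  change f (a ^ (Multiplicative.toAdd c).val) = 1
  rw [map_pow, MonoidHom.mem_ker.1 haf, one_pow]

variable {p : ℕ} [Fact p.Prime] {Ω : Type} [Field Ω] [Algebra (ZMod p) Ω]

/-- The case of a trivial kernel. -/
theorem good_iso {x : Ω} {E G : Type} [Group E] [Group G] {ψ : Gx p x →* G} (hψ : GoodR p x ψ)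
    (e : E ≃* G) : GoodR p x (e.symm.toMonoidHom.comp ψ) := by
  refine ⟨hψ.stage, ?_, ?_, ?_⟩
  · obtain ⟨S, hS⟩ := hψ.fin
    refine ⟨S, fun γ hγ => ?_⟩
    change e.symm (ψ γ) = 1
    rw [hS γ hγ, map_one]
  · intro g
    obtain ⟨γ, hγ, h⟩ := hψ.reg (e g)
    refine ⟨γ, hγ, ?_⟩
    change e.symm (ψ γ) = g
    rw [h, MulEquiv.symm_apply_apply]
  · intro r hr hrp V hV hb γ hγ hdvd
    apply hψ.inv r hr hrp V hV hb γ hγ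
    have h1 : orderOf ((e.symm.toMonoidHom.comp ψ) γ) = orderOf (ψ γ) :=
      MulEquiv.orderOf_eq e.symm (ψ γ)
    rwa [h1] at hdvd

end LMainAux

open WeakAux LMainAux

theorem lMainStmt (h1 : WeakStmt) (h2 : KStmt) (h3 : CorStmt) (h4 : StabSStmt) (h5 : BCStmt)
    (h6 : RegGStmt) : LMainStmt := by
  classical
  intro p hp hC Ω _ _ x G _ _ ψ hψ E _ _ f hf ℓ hℓ hℓp hfℓ hfc hmin
  have hℓF : Fact ℓ.Prime := ⟨hℓ⟩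
  have hℓ0 : NeZero ℓ := ⟨hℓ.ne_zero⟩
  by_cases hker : ∀ a ∈ f.ker, a = 1
  · have hinj : Function.Injective f := (injective_iff_map_eq_one f).2 fun a ha =>
      hker a (MonoidHom.mem_ker.2 ha)
    let e : E ≃* G := MulEquiv.ofBijective f ⟨hinj, hf⟩
    refine ⟨x, 1, Nat.coprime_one_left p, pow_one x, e.symm.toMonoidHom.comp ψ, good_iso hψ e,
      fun γ h' h => ?_⟩
    exact e.apply_symm_apply (ψ ⟨γ, h⟩)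
  push Not at hker
  obtain ⟨a₀, ha₀, ha₀1⟩ := hker
  have ha₀ℓ : a₀ ^ ℓ = 1 := hfℓ a₀ ha₀
  have hcop : ∀ i : ℕ, (ℓ ^ i).Coprime p := fun i =>
    Nat.Coprime.pow_left i ((Nat.coprime_primes hℓ hp.out).2 hℓp)
  obtain ⟨x₁, j, hx₁, ψ₁, ⟨S₁, hS₁⟩, hSI₁, hψ₁⟩ := h1 p hC Ω x G ψ hψ E f hf ℓ hℓ hℓp hfℓ hfc
  obtain ⟨hst₁, hle₁, -, -⟩ := h5 p Ω x hψ.stage x₁ (ℓ ^ j) (hcop j) hx₁
  obtain ⟨Sμ, hSμ⟩ := exists_mu (Ω := Ω) hℓ.pos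
  -- the subgroup `N`
  let N : Subgroup (Ω ≃ₐ[ZMod p] Ω) := Hs x₁ ψ₁ ⊥ ℓ
  have hNle : N ≤ Gx p x₁ := fun γ h => h.choose
  have hNψ : ∀ (γ : Ω ≃ₐ[ZMod p] Ω) (h : γ ∈ Gx p x₁), γ ∈ N → ψ₁ ⟨γ, h⟩ = 1 := fun γ h hN =>
    Subgroup.mem_bot.1 hN.choose_spec.1
  have hNnorm : ∀ γ ∈ Gx p x₁, ∀ n ∈ N, γ * n * γ⁻¹ ∈ N := by
    rintro γ hγ n ⟨hn, hn1, hn2⟩
    refine ⟨mul_mem (mul_mem hγ hn) (inv_mem hγ), ?_, fun ζ hζ => ?_⟩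
    · have h : (⟨γ * n * γ⁻¹, mul_mem (mul_mem hγ hn) (inv_mem hγ)⟩ : Gx p x₁) =
          ⟨γ, hγ⟩ * ⟨n, hn⟩ * ⟨γ, hγ⟩⁻¹ := rfl
      rw [h, map_mul, map_mul, map_inv, Subgroup.mem_bot.1 hn1, mul_one, mul_inv_cancel]
      exact one_mem _
    · change γ (n (γ.symm ζ)) = ζ
      rw [hn2 (γ.symm ζ) (by rw [← map_pow, hζ, map_one]), AlgEquiv.apply_symm_apply]
  have hNopn : ∀ γ ∈ Gx p x₁, (∀ s ∈ S₁ ∪ Sμ, γ s = s) → γ ∈ N := by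
    intro γ hγ hs
    refine ⟨hγ, ?_, fun ζ hζ => hs ζ (Finset.mem_union_right _ (hSμ ζ hζ))⟩
    rw [hS₁ ⟨γ, hγ⟩ fun s h => hs s (Finset.mem_union_left _ h)]
    exact one_mem _
  have hNzero : ∀ V : ValuationSubring Ω, V ≠ ⊤ → V.valuation x₁ < 1 → ∀ γ ∈ Gx p x₁,
      γ ∈ Inert p V → ∃ a : ℕ, a.Coprime ℓ ∧ γ ^ a ∈ N := by
    intro V hV hVx γ hγ hI
    refine ⟨orderOf (ψ₁ ⟨γ, hγ⟩), ?_, pow_mem hγ _, ?_, fun ζ hζ => ?_⟩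
    · rw [Nat.coprime_comm, hℓ.coprime_iff_not_dvd]
      exact hSI₁ ℓ hℓ hℓp V hV (Or.inl hVx) ⟨γ, hγ⟩ hI
    · have h : (⟨γ ^ orderOf (ψ₁ ⟨γ, hγ⟩), pow_mem hγ _⟩ : Gx p x₁) =
          ⟨γ, hγ⟩ ^ orderOf (ψ₁ ⟨γ, hγ⟩) := rfl
      rw [h, map_pow, pow_orderOf_eq_one]
      exact one_mem _
    · exact root_fix hℓ.pos (pow_mem hI.1 _) hζ
  obtain ⟨x₂, hx₂, k, ⟨Sk, hSk⟩, hkbad, τ, hτg, hτ1, hτ⟩ := h2 p Ω x₁ hst₁ ℓ hℓ hℓp N hNle hNnorm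
    ⟨S₁ ∪ Sμ, hNopn⟩ (fun ζ hζ γ hγ => hγ.choose_spec.2 ζ hζ) hNzero
  have hx₂x : x₂ ^ (ℓ ^ (j + 1)) = x := by
    rw [pow_succ', pow_mul, hx₂, hx₁]
  obtain ⟨hst₂, hle₂, -, hgood⟩ := h5 p Ω x hψ.stage x₂ (ℓ ^ (j + 1)) (hcop _) hx₂x
  obtain ⟨-, hle₁₂, hbad₁₂, -⟩ := h5 p Ω x₁ hst₁ x₂ ℓ
    ((Nat.coprime_primes hℓ hp.out).2 hℓp) hx₂
  let ψ₀ : Gx p x₂ →* G := ψ.comp (Subgroup.inclusion hle₂)
  have hg₀ : GoodR p x₂ ψ₀ := hgood G ψ hψ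
  let N₂ : Subgroup (Gx p x₂) := (N ⊓ Gx p x₂).subgroupOf (Gx p x₂)
  have hmem : ∀ γ : Gx p x₂, γ ∈ N₂ ↔ (γ : Ω ≃ₐ[ZMod p] Ω) ∈ N := fun γ =>
    ⟨fun h => h.1, fun h => ⟨h, γ.2⟩⟩
  have hN₂n : N₂.Normal := by
    constructor
    intro n hn g
    rw [hmem] at hn ⊢
    exact hNnorm g (hle₁₂ g.2) n hn
  have hN₂f : N₂.FiniteIndex := (h4 p Ω x₂ hst₂).2 N₂ (S₁ ∪ Sμ) fun γ hγ =>
    (hmem γ).2 (hNopn γ (hle₁₂ γ.2) hγ)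
  let ι : N₂ →* (N ⊓ Gx p x₂ : Subgroup (Ω ≃ₐ[ZMod p] Ω)) :=
    { toFun := fun γ => ⟨((γ : Gx p x₂) : Ω ≃ₐ[ZMod p] Ω), γ.2⟩
      map_one' := rfl
      map_mul' := fun _ _ => rfl }
  let k' : N₂ →* E := (kap a₀ ha₀ℓ).comp (k.comp ι)
  have hk' : ∀ (γ : Gx p x₂) (h : γ ∈ N₂) (γ' : Ω ≃ₐ[ZMod p] Ω) (h' : γ' ∈ N ⊓ Gx p x₂),
      (γ : Ω ≃ₐ[ZMod p] Ω) = γ' → k' ⟨γ, h⟩ = kap a₀ ha₀ℓ (k ⟨γ', h'⟩) := by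
    rintro γ h γ' h' rfl
    rfl
  let ψ₁' : Gx p x₂ →* E := ψ₁.comp (Subgroup.inclusion hle₁₂)
  obtain ⟨ψ₂, hψ₂f, hψ₂w, hψ₂τ⟩ := h3 (Gx p x₂) E G N₂ f hfc ψ₁'
    (fun n hn => hNψ _ (hle₁₂ n.2) ((hmem n).1 hn)) k'
    (fun n => map_kap f a₀ ha₀ℓ ha₀ (k (ι n)))
  have hf₂ : ∀ γ : Gx p x₂, f (ψ₂ γ) = ψ₀ γ := by
    intro γ
    rw [hψ₂f]
    exact hψ₁ γ (hle₁₂ γ.2) (hle₂ γ.2)
  refine ⟨x₂, ℓ ^ (j + 1), hcop _, hx₂x, ψ₂, ⟨hst₂, ?_, ?_, ?_⟩, fun γ h' h => hf₂ ⟨γ, h'⟩⟩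
  · -- finite level
    apply fin_lift h4 hst₂ (S₁ ∪ Sμ ∪ Sk)
    intro w hw
    apply hψ₂w
    intro g
    have h7 : g⁻¹ * w * g ∈ N₂ :=
      (hmem _).2 (hNopn _ (hle₁₂ (g⁻¹ * w * g).2) fun s hs =>
        hw g s (Finset.mem_union_left _ hs))
    refine ⟨h7, ?_⟩
    rw [hk' _ h7 _ h7 rfl, hSk _ fun s hs => hw g s (Finset.mem_union_right _ hs), map_one]
  · -- regularity
    have hI : ((Fx p (Cst p Ω : Set Ω)).subgroupOf (Gx p x₂)).map ψ₂ = ⊤ := by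
      apply h6 E G f _ hfc hmin
      · intro e
        obtain ⟨γ, hγ, h⟩ := hg₀.reg (f e)
        exact ⟨ψ₂ γ, ⟨γ, hγ, rfl⟩, (hf₂ γ).trans h⟩
      · have hτN : (⟨(τ : Ω ≃ₐ[ZMod p] Ω), τ.2.2⟩ : Gx p x₂) ∈ N₂ := τ.2
        have h7 : ψ₂ ⟨(τ : Ω ≃ₐ[ZMod p] Ω), τ.2.2⟩ = kap a₀ ha₀ℓ (k τ) := by
          rw [← hk' _ hτN _ τ.2 rfl]
          refine hψ₂τ ⟨_, hτN⟩ fun g hg => ?_
          have hg' : (g : Ω ≃ₐ[ZMod p] Ω) ∉ N := fun h => hg ((hmem g).2 h)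
          obtain ⟨h8, h9⟩ := hτ g g.2 hg'
          refine ⟨h8, ?_⟩
          rw [hk' _ h8 _ h8 rfl, h9, map_one]
        refine ⟨kap a₀ ha₀ℓ (k τ), ⟨⟨(τ : Ω ≃ₐ[ZMod p] Ω), τ.2.2⟩, hτg, h7⟩,
          MonoidHom.mem_ker.2 (map_kap f a₀ ha₀ℓ ha₀ _), kap_ne_one hℓ a₀ ha₀ℓ ha₀1 hτ1⟩
    intro e
    have he : e ∈ ((Fx p (Cst p Ω : Set Ω)).subgroupOf (Gx p x₂)).map ψ₂ := by
      rw [hI]
      exact Subgroup.mem_top e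
    obtain ⟨γ, hγ, h⟩ := he
    exact ⟨γ, hγ, h⟩
  · -- the invariant (S)
    apply sinv_lift f hℓ hfℓ ψ₀ hg₀.inv ψ₂ hf₂
    intro V hV hb γ hI
    have hb₁ : BadV ℓ x₁ V := hbad₁₂ ℓ V hb
    refine ⟨orderOf (ψ₁' γ), hSI₁ ℓ hℓ hℓp V hV hb₁ ⟨γ, hle₁₂ γ.2⟩ hI, ?_⟩
    apply hψ₂w
    intro g
    obtain ⟨w, hw⟩ : ∃ w : Gx p x₂, w = γ ^ orderOf (ψ₁' γ) := ⟨_, rfl⟩
    rw [← hw]
    have hwI : (w : Ω ≃ₐ[ZMod p] Ω) ∈ Inert p V := by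
      rw [hw]
      exact pow_mem hI _
    have hwc : ((g⁻¹ * w * g : Gx p x₂) : Ω ≃ₐ[ZMod p] Ω) ∈
        Inert p (vc V (g : Ω ≃ₐ[ZMod p] Ω)) := by
      rw [Subgroup.coe_mul, Subgroup.coe_mul, Subgroup.coe_inv]
      exact inert_conj (g : Ω ≃ₐ[ZMod p] Ω) hwI
    have hψw : ψ₁' w = 1 := by rw [hw, map_pow, pow_orderOf_eq_one]
    have h7 : ψ₁' (g⁻¹ * w * g) = 1 := conj_one ψ₁' g w hψw
    have h8 : g⁻¹ * w * g ∈ N₂ := by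
      refine (hmem _).2 ⟨hle₁₂ (g⁻¹ * w * g).2, ?_, fun ζ hζ => root_fix hℓ.pos hwc.1 hζ⟩
      exact Subgroup.mem_bot.2 h7
    refine ⟨h8, ?_⟩
    rw [hk' _ h8 _ h8 rfl, hkbad (vc V (g : Ω ≃ₐ[ZMod p] Ω)) (vc_ne_top hV (g : Ω ≃ₐ[ZMod p] Ω))
      (vc_bad (mem_Gx.1 g.2) hb) ⟨_, h8⟩ hwc, map_one]

end MP7Z.EPL
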