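import Pool.Agent.Lib.MP_7f581e_Z.EPL.MainK
import Pool.Agent.Lib.MP_7f581e_Z.EPL.LMain

/-! # `LStep p`, complete -/

namespace MP7Z

/-- Embedding problems with kernel an elementary abelian `ℓ`-group, `ℓ ≠ p`. -/
theorem ep_lStep (p : ℕ) [Fact p.Prime] : LStep p :=
  EPL.lMainStmt EPL.epl_weak EPL.epl_k EPL.corStmt EPL.stabSStmt br_bc EPL.regGStmt p (cs_step p)

end MP7Z
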