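import Pool.Agent.Lib.MP_7f581e_Z.EPL.Spec

/-!
# Package EP-l, module RegG
-/

set_option autoImplicit false

namespace MP7Z.EPL

theorem regGStmt : RegGStmt := by
  intro E G _ _ f I hcomm hmin hsurj hex
  have hdec : ∀ g : E, ∃ i ∈ I, ∃ a ∈ f.ker, g = i * a := by
    intro g
    obtain ⟨i, hi, hfi⟩ := hsurj g
    refine ⟨i, hi, i⁻¹ * g, ?_, by group⟩
    rw [MonoidHom.mem_ker, map_mul, map_inv, hfi, inv_mul_cancel]
  have hN : (I ⊓ f.ker).Normal := by
    constructor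
    rintro n ⟨hnI, hnk⟩ g
    obtain ⟨i, hi, a, ha, rfl⟩ := hdec g
    have h1 : i * a * n * (i * a)⁻¹ = i * n * i⁻¹ := by
      have h2 : a * n = n * a := hcomm a ha n hnk
      calc i * a * n * (i * a)⁻¹ = i * (a * n) * a⁻¹ * i⁻¹ := by group
        _ = i * n * i⁻¹ := by rw [h2]; group
    rw [h1]
    refine ⟨I.mul_mem (I.mul_mem hi hnI) (I.inv_mem hi), ?_⟩
    exact (MonoidHom.normal_ker f).conj_mem n hnk i
  obtain ⟨a, haI, hak, ha1⟩ := hex
  have hker : f.ker ≤ I := by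
    rcases hmin (I ⊓ f.ker) hN inf_le_right with h | h
    · exfalso
      have h1 : a ∈ I ⊓ f.ker := ⟨haI, hak⟩
      rw [h, Subgroup.mem_bot] at h1
      exact ha1 h1
    · rw [← h]
      exact inf_le_left
  rw [eq_top_iff]
  intro g _
  obtain ⟨i, hi, b, hb, rfl⟩ := hdec g
  exact I.mul_mem hi (hker hb)

end MP7Z.EPL
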