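import Pool.Agent.Lib.MP_7f581e_Z.Interface
import Pool.Agent.Lib.MP_7f581e_Z.BR.Spec
import Pool.Agent.Lib.MP_7f581e_Z.EP.CStep

/-!
# Package EP-l: the step `LStep p` from the central step `CStep p`

`ψ : Gx p x →* G` good, `f : E →* G` surjective with kernel `A` an elementary abelian `ℓ`-group and
minimal normal.  (Weak) a homomorphism `ψ₁ : Gx p x₁ →* E` over `ψ`, of finite level with (S), by the
chain of central steps over a Sylow subgroup and Gaschütz' theorem; (K) a Kummer homomorphism `k` on an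
open normal subgroup, whose corestriction twists `ψ₁` into a homomorphism which is regular.
-/

namespace MP7Z.EPL

/-- **RegG** (30 lines).  Group theory: a subgroup `I` which maps onto `G` and meets the abelian minimal
normal subgroup `ker f` is everything.
Proof: `I ⊓ f.ker` is normalized by `I` and by `f.ker` (commutative), and `E = f.ker * I`; so it is a
normal subgroup of `E` contained in `f.ker`, not trivial, hence equal to `f.ker`; so `f.ker ≤ I`, `I = ⊤`. -/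
def RegGStmt : Prop :=
  ∀ (E G : Type) [Group E] [Group G] (f : E →* G) (I : Subgroup E),
    (∀ a ∈ f.ker, ∀ b ∈ f.ker, a * b = b * a) →
    (∀ N : Subgroup E, N.Normal → N ≤ f.ker → N = ⊥ ∨ N = f.ker) →
    (∀ e : E, ∃ i ∈ I, f i = f e) → (∃ a ∈ I, a ∈ f.ker ∧ a ≠ 1) → I = ⊤

/-- **Gas** (120 lines).  Gaschütz' theorem in cocycle form for an infinite group `Γ` and a subgroup `H` of
finite index prime to `ℓ`, with control of the kernel.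
Proof.  Choose representatives: a function `r : Γ ⧸ H → Γ` with `r` of the coset of `1` equal to `1`
(modify `Quotient.out` at one point) and for every coset `q` an element `ε q : E` with
`f (ε q) = ψ (r q)`, `ε` of the trivial coset equal to `1`.  For `γ : Γ`, `q` its coset, put
`s γ := ε q * ρ ((r q)⁻¹ * γ)`.  Then `f (s γ) = ψ γ`, `s (γ * h) = s γ * ρ h` for `h ∈ H`, `s 1 = 1`.
`c γ δ := s γ * s δ * (s (γ * δ))⁻¹ ∈ f.ker`; it depends only on the coset `δ H`: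
`c γ (δ h) = c γ δ`.  Write `c' γ q` for the function on `Γ × Γ ⧸ H`.  The identity
`c γ δ * c (γ δ) ε = (s γ * c δ ε * (s γ)⁻¹) * c γ (δ ε)` holds (both sides are
`s γ s δ s ε (s (γ δ ε))⁻¹`).  Multiply over `ε H ∈ Γ ⧸ H` (in the commutative group `f.ker`; the index
is `m`, left multiplication by `δ` permutes the cosets): with `b γ := ∏ q, c' γ q`,
`(c γ δ) ^ m * b (γ δ) = (s γ * b δ * (s γ)⁻¹) * b γ`.  Choose `u` with `m * u ≡ 1 mod ℓ` and put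
`ψ' γ := (b γ ^ u)⁻¹ * s γ`.  Then `ψ' γ * ψ' δ = ψ' (γ δ)`.  If all conjugates `g⁻¹ * w * g` of `w` are in
`H` and killed by `ρ`, then `s (w * δ) = s (δ * (δ⁻¹ * w * δ)) = s δ` for all `δ` and `s w = 1`, so
`c w δ = 1`, `b w = 1`, `ψ' w = 1`. -/
def GasStmt : Prop :=
  ∀ (Γ E G : Type) [Group Γ] [Group E] [Group G] (H : Subgroup Γ) [H.FiniteIndex] (ℓ : ℕ),
    H.index.Coprime ℓ → ∀ (f : E →* G), (∀ a ∈ f.ker, a ^ ℓ = 1) →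
    (∀ a ∈ f.ker, ∀ b ∈ f.ker, a * b = b * a) → ∀ (ψ : Γ →* G), (∀ γ, ∃ e, f e = ψ γ) →
    ∀ ρ : H →* E, (∀ h : H, f (ρ h) = ψ h) →
    ∃ ψ' : Γ →* E, (∀ γ, f (ψ' γ) = ψ γ) ∧
      ∀ w : Γ, (∀ g : Γ, ∃ h : g⁻¹ * w * g ∈ H, ρ ⟨_, h⟩ = 1) → ψ' w = 1

/-- **Cor** (120 lines).  Twisting by a corestriction.
Proof.  Let `r : Γ ⧸ N → Γ` be representatives (`Quotient.out`).  For `γ : Γ` and a coset `t` let
`t_γ = γ⁻¹ t` and `n γ t := (r t)⁻¹ * γ * r (γ⁻¹ • t) ∈ N`.  Put (product over the finite set of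
cosets, in the commutative group `f.ker`)
`c γ := ∏ t, ψ₁ (r t) * k (n γ t) * (ψ₁ (r t))⁻¹`.  As `n (γ δ) t = n γ t * n δ (γ⁻¹ t)`, and
`ψ₁ (r t) = ψ₁ (γ * r (γ⁻¹ t))` (`ψ₁` is trivial on `N`), `c (γ δ) = c γ * (ψ₁ γ * c δ * (ψ₁ γ)⁻¹)`.
`ψ₂ γ := c γ * ψ₁ γ` is a homomorphism.  For `w ∈ N`: `γ⁻¹ t = t` (`N` normal), `n w t = (r t)⁻¹ w r t`,
`ψ₁ w = 1`, so `ψ₂ w = ∏ t, ψ₁ (r t) * k ((r t)⁻¹ w r t) * (ψ₁ (r t))⁻¹`.  The last two claims follow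
(for the second: only the trivial coset contributes; its representative `r t` is in `N`, `ψ₁ (r t) = 1`
and `k` is invariant under conjugation by `N` since `f.ker` is commutative). -/
def CorStmt : Prop :=
  ∀ (Γ E G : Type) [Group Γ] [Group E] [Group G] (N : Subgroup Γ) [N.Normal] [N.FiniteIndex]
    (f : E →* G), (∀ a ∈ f.ker, ∀ b ∈ f.ker, a * b = b * a) →
    ∀ (ψ₁ : Γ →* E), (∀ n ∈ N, ψ₁ n = 1) → ∀ k : N →* E, (∀ n, f (k n) = 1) →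
    ∃ ψ₂ : Γ →* E, (∀ γ, f (ψ₂ γ) = f (ψ₁ γ)) ∧
      (∀ w : Γ, (∀ g : Γ, ∃ h : g⁻¹ * w * g ∈ N, k ⟨_, h⟩ = 1) → ψ₂ w = 1) ∧
      (∀ τ : N, (∀ g : Γ, g ∉ N → ∃ h : g⁻¹ * τ * g ∈ N, k ⟨_, h⟩ = 1) → ψ₂ τ = k τ)

/-- **Idx** (80 lines).  The index of `{ψ γ ∈ P, γ fixes the ℓ-th roots of unity}` is prime to `ℓ`.
Proof: group theory.  Index of `ψ⁻¹ P` is the index of `P` (`ψ` surjective; `Subgroup.index_comap`), prime
to `ℓ` by Sylow.  The subgroup `χ⁻¹ 1` for `χ : Gx p x →* (ZMod ℓ)ˣ` (cyclotomic character,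
`modularCyclotomicCharacter`; there are `ℓ` roots of unity in `Ω`, as `ℓ ≠ p` and `Ω` is separably closed) has
relative index dividing `ℓ - 1` in any subgroup.  `index (A ⊓ B) = index A * relIndex`. -/
def IdxStmt : Prop :=
  ∀ (p : ℕ) [Fact p.Prime] (Ω : Type) [Field Ω] [Algebra (ZMod p) Ω] (x : Ω), IsStage p x →
    ∀ (ℓ : ℕ) (_ : Fact ℓ.Prime), ℓ ≠ p → ∀ (G : Type) [Group G] [Finite G] (ψ : Gx p x →* G),
      Function.Surjective ψ → ∀ (P : Sylow ℓ G) (H : Subgroup (Gx p x)),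
      (∀ γ : Gx p x, γ ∈ H ↔ ψ γ ∈ (P : Subgroup G) ∧
        ∀ ζ : Ω, ζ ^ ℓ = 1 → (γ : Ω ≃ₐ[ZMod p] Ω) ζ = ζ) →
      H.FiniteIndex ∧ H.index.Coprime ℓ

/-- **StabS** (60 lines).  Finite sets are contained in finite `Gx p x`-stable sets; open subgroups have
finite index.
Proof: every `s : Ω` is algebraic over `F₀ = adjoin (ZMod p) {x}` and every `γ ∈ Gx p x` is an
`F₀`-automorphism (fixes `ZMod p` and `x`), so it permutes the roots in `Ω` of the minimal polynomial of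
`s`.  `S'` = union of the root sets of the minimal polynomials.  Second claim: an open subgroup contains
the kernel of the action of `Gx p x` on the finite set `S'` (`Gx p x →* Equiv.Perm S'`, finite target). -/
def StabSStmt : Prop :=
  ∀ (p : ℕ) [Fact p.Prime] (Ω : Type) [Field Ω] [Algebra (ZMod p) Ω] (x : Ω), IsStage p x →
    (∀ S : Finset Ω, ∃ S' : Finset Ω, S ⊆ S' ∧ ∀ γ ∈ Gx p x, ∀ s ∈ S', γ s ∈ S') ∧
    ∀ (H : Subgroup (Gx p x)) (S : Finset Ω),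
      (∀ γ : Gx p x, (∀ s ∈ S, (γ : Ω ≃ₐ[ZMod p] Ω) s = s) → γ ∈ H) → H.FiniteIndex

/-- **Chain** (120 lines).  Lifting through any surjection of `ℓ`-groups.
Proof: induction on `Nat.card f.ker` (generalizing `P'`, `f`).  If it is `1`, `f` is an isomorphism:
`x' = x`, `j = 0`, `H' = H` (`H ⊓ Gx p x = H`), `ρ' = f⁻¹ ∘ ρ`.  Otherwise `f.ker` is a nontrivial normal
subgroup of the finite `ℓ`-group `P'`, so it contains a central element `z` of order `ℓ`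
(`IsPGroup.bot_lt_inf_center`-type lemma and Cauchy).  `Z = zpowers z` is normal; `f` induces
`f₁ : P' ⧸ Z →* P`, surjective, with `Nat.card f₁.ker < Nat.card f.ker`.  Induction: `x₁`, `H₁ = H ⊓ Gx p x₁`,
`ρ₁ : H₁ →* P' ⧸ Z`.  `CStep` for `QuotientGroup.mk' Z` gives `x'`, `x' ^ (ℓ ^ j') = x₁` and
`ρ'` on `H₁ ⊓ Gx p x'`, which is `H ⊓ Gx p x'` because `Gx p x' ≤ Gx p x₁`. -/
def ChainStmt : Prop :=
  ∀ (p : ℕ) [Fact p.Prime], CStep p →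
  ∀ (ℓ : ℕ), ℓ.Prime → ℓ ≠ p →
  ∀ (Ω : Type) [Field Ω] [Algebra (ZMod p) Ω] (x : Ω) (H : Subgroup (Ω ≃ₐ[ZMod p] Ω))
    (P : Type) [Group P] [Finite P] (ρ : H →* P), IsPGroup ℓ P → NHom p ℓ x H ρ →
  ∀ (P' : Type) [Group P'] [Finite P'] (f : P' →* P), Function.Surjective f → IsPGroup ℓ P' →
  ∃ (x' : Ω) (j : ℕ) (H' : Subgroup (Ω ≃ₐ[ZMod p] Ω)), x' ^ (ℓ ^ j) = x ∧ H' = H ⊓ Gx p x' ∧
    ∃ ρ' : H' →* P', NHom p ℓ x' H' ρ' ∧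
      ∀ (γ : Ω ≃ₐ[ZMod p] Ω) (h : γ ∈ H') (h₁ : γ ∈ H), f (ρ' ⟨γ, h⟩) = ρ ⟨γ, h₁⟩

/-- **Weak** (250 lines).  The weak solution with finite level and (S).
Proof.  `ψ` is surjective (`reg`).  `P` a Sylow `ℓ`-subgroup of `G`; `H` = the `γ ∈ Gx p x` with `ψ γ ∈ P` which
fix all `ℓ`-th roots of unity; `ρ : H →* P` the restriction of `ψ`.  `NHom p ℓ x H ρ`: `opn`: the finite set
of `FinLevel ψ` and the roots of unity; `zero`: `a = orderOf (ψ γ)`, prime to `ℓ` by (S)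
(`BadV` holds, `V.valuation x < 1`), `ψ (γ^a) = 1`, and `γ` fixes the roots of unity (they are in `Cst`);
`neu`: `orderOf (ψ γ)` is prime to `ℓ` by (S) and a power of `ℓ`.
`P' := P.comap f` (preimage in `E`), an `ℓ`-group (`f.ker` and `P` are), `f_P : P' →* P` surjective.
*Chain*: `x₁`, `x₁ ^ (ℓ^j) = x`, `H₁ = H ⊓ Gx p x₁`, `ρ₁ : H₁ →* P'`.
`ψ_1 := ψ` restricted to `Gx p x₁` is good by *BC* (`ℓ ^ j` prime to `p`).  `H₁` as a subgroup `H₂` of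
`Gx p x₁` has finite index prime to `ℓ` by *Idx* for `x₁, ψ_1`.  *Gas* with `Γ = Gx p x₁`, `H₂`, `ρ₁`
(composed with `P' →* E`) gives `ψ' : Gx p x₁ →* E`, `f (ψ' γ) = ψ_1 γ`.
Finite level: let `S` be a finite set such that `γ ∈ Gx p x₁` fixing `S` is in `H₁` and killed by `ρ₁`
(`opn` and `fin` of `NHom`), `S'` the stable set of *StabS* (for `x₁`); if `γ` fixes `S'`, so do its
conjugates, so the last clause of *Gas* gives `ψ' γ = 1`.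
(S): `r` prime, `V` `r`-bad for `x₁`, `γ ∈ Gx p x₁ ∩ Inert p V`, `n₀ = orderOf (ψ γ)`, prime to `r` by (S) for
`ψ_1`.  If `r ≠ ℓ`: `(ψ' γ) ^ n₀ ∈ f.ker`, so `orderOf (ψ' γ)` divides `n₀ * ℓ`.  If `r = ℓ`: let `w = γ ^ n₀`;
for every `g ∈ Gx p x₁`, `g⁻¹ w g` is in `Gx p x₁`, killed by `ψ`, fixes `Cst`, so is in `H₁`; and it is in
`Inert p V'`, `V' = {z | g z ∈ V} = V.comap g`, which is again `≠ ⊤` and `ℓ`-bad for `x₁` (`g x₁ = x₁`), so `ρ₁`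
kills it (`neu`).  By *Gas* `ψ' w = 1`, so `orderOf (ψ' γ)` divides `n₀`.
*Uses*: Chain, Gas, Idx, StabS, BC. -/
def WeakStmt : Prop :=
  ∀ (p : ℕ) [Fact p.Prime], CStep p →
  ∀ (Ω : Type) [Field Ω] [Algebra (ZMod p) Ω] (x : Ω) (G : Type) [Group G] [Finite G]
    (ψ : Gx p x →* G), GoodR p x ψ →
  ∀ (E : Type) [Group E] [Finite E] (f : E →* G), Function.Surjective f →
  ∀ (ℓ : ℕ), ℓ.Prime → ℓ ≠ p → (∀ a ∈ f.ker, a ^ ℓ = 1) →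
    (∀ a ∈ f.ker, ∀ b ∈ f.ker, a * b = b * a) →
  ∃ (x₁ : Ω) (j : ℕ), x₁ ^ (ℓ ^ j) = x ∧ ∃ ψ₁ : Gx p x₁ →* E, FinLevel ψ₁ ∧ SInv p x₁ ψ₁ ∧
    ∀ (γ : Ω ≃ₐ[ZMod p] Ω) (h' : γ ∈ Gx p x₁) (h : γ ∈ Gx p x), f (ψ₁ ⟨γ, h'⟩) = ψ ⟨γ, h⟩

/-- **K**: the Kummer homomorphism `k` (see the tasks KV, KY, K below). -/
def KStmt : Prop :=
  ∀ (p : ℕ) [Fact p.Prime] (Ω : Type) [Field Ω] [Algebra (ZMod p) Ω] (x₁ : Ω), IsStage p x₁ →
    ∀ (ℓ : ℕ), ℓ.Prime → ℓ ≠ p → ∀ (N : Subgroup (Ω ≃ₐ[ZMod p] Ω)), N ≤ Gx p x₁ →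
    (∀ γ ∈ Gx p x₁, ∀ n ∈ N, γ * n * γ⁻¹ ∈ N) →
    (∃ S : Finset Ω, ∀ γ ∈ Gx p x₁, (∀ s ∈ S, γ s = s) → γ ∈ N) →
    (∀ ζ : Ω, ζ ^ ℓ = 1 → ∀ γ ∈ N, γ ζ = ζ) →
    (∀ V : ValuationSubring Ω, V ≠ ⊤ → V.valuation x₁ < 1 → ∀ γ ∈ Gx p x₁, γ ∈ Inert p V →
      ∃ a : ℕ, a.Coprime ℓ ∧ γ ^ a ∈ N) →
    ∃ x₂ : Ω, x₂ ^ ℓ = x₁ ∧
      ∃ k : (N ⊓ Gx p x₂ : Subgroup (Ω ≃ₐ[ZMod p] Ω)) →* Multiplicative (ZMod ℓ), FinLevel k ∧
        (∀ V : ValuationSubring Ω, V ≠ ⊤ → BadV ℓ x₂ V →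
          ∀ γ : (N ⊓ Gx p x₂ : Subgroup (Ω ≃ₐ[ZMod p] Ω)),
            (γ : Ω ≃ₐ[ZMod p] Ω) ∈ Inert p V → k γ = 1) ∧
        ∃ τ : (N ⊓ Gx p x₂ : Subgroup (Ω ≃ₐ[ZMod p] Ω)),
          (τ : Ω ≃ₐ[ZMod p] Ω) ∈ Fx p (Cst p Ω : Set Ω) ∧ k τ ≠ 1 ∧
          ∀ g ∈ Gx p x₂, g ∉ N → ∃ h : g⁻¹ * τ * g ∈ N ⊓ Gx p x₂, k ⟨_, h⟩ = 1

/-- **LMain** (200 lines).  Assembly.
Proof.  If `f.ker` is trivial, `f` is an isomorphism: `x' = x`, `n = 1`, `ψ' = f⁻¹ ∘ ψ`.  Otherwise let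
`a₀ ∈ f.ker`, `a₀ ≠ 1` (order `ℓ`).  *Weak* gives `x₁, ψ₁`; `IsStage p x₁` by *BC*.
`N = {γ ∈ Gx p x₁ | ψ₁ γ = 1, γ fixes the ℓ-th roots of unity}`: normal, open (finitely many roots of
unity), and at a zero `V` of `x₁` the exponent `a = orderOf (ψ₁ γ)` works (prime to `ℓ` by (S) of `ψ₁`,
`ψ₁ (γ^a) = 1`, roots of unity are in `Cst`).  *K* gives `x₂`, `k`, `τ`.  By *BC* (from `x` to `x₂`,
`x₂ ^ (ℓ^(j+1)) = x`) `ψ₂' = ψ` restricted to `Gx p x₂` is good.  `Γ = Gx p x₂`, `N₂ = N ⊓ Gx p x₂` as a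
subgroup of `Γ`: normal, of finite index (*StabS*).  `k' : N₂ →* E`, `γ ↦ a₀ ^ (k γ)`
(`zmodCyclic`-type homomorphism `Multiplicative (ZMod ℓ) →* E`, `zmultiplesHom` / `ZMod.lift`),
`ψ₁` restricted to `Γ` is trivial on `N₂`.  *Cor*: `ψ₂ : Gx p x₂ →* E`.
Finite level: as in *Weak*, with the last-but-one clause of *Cor* and *StabS*.
(S): `r ≠ ℓ`: `orderOf (ψ₂ γ)` divides `orderOf (ψ γ) * ℓ`.  `r = ℓ`, `V` `ℓ`-bad for `x₂`, hence for `x₁`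
(*BC*): `n₀ = orderOf (ψ₁ γ)` is prime to `ℓ`; `w = γ ^ n₀ ∈ N₂`, all conjugates `g⁻¹ w g` (`g ∈ Γ`) are in
`N₂` and in `Inert p (V.comap g)`, `V.comap g` is `ℓ`-bad for `x₂`, so `k` kills them: `ψ₂ w = 1`.
Regularity: `I = ψ₂ (geometric part)`; for `e : E` there is a geometric `γ ∈ Gx p x₂` with
`ψ γ = f e` (`reg` for `ψ₂'`), so `f (ψ₂ γ) = f e`; `ψ₂ τ = a₀ ^ (k τ) ≠ 1` is in `I ∩ f.ker`; *RegG*.
*Uses*: Weak, K, Cor, StabS, BC, RegG. -/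
def LMainStmt : Prop := ∀ (p : ℕ) [Fact p.Prime], CStep p → LStep p

end MP7Z.EPL
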