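import Pool.Agent.Lib.MP_7f581e_Z.EPL.Spec

/-!
# Lifting through any surjection of `ℓ`-groups, from the central step
-/

namespace MP7Z.EPL

namespace ChainAux

/-- A nontrivial normal subgroup of a finite `ℓ`-group contains a central element of order `ℓ`. -/
theorem exists_central (ℓ : ℕ) (hℓ : ℓ.Prime) (P : Type) [Group P] [Finite P]
    (hP : IsPGroup ℓ P) (N : Subgroup P) [N.Normal] (hN : N ≠ ⊥) :
    ∃ z ∈ N, (∀ b : P, z * b = b * z) ∧ orderOf z = ℓ := by
  haveI : Fact ℓ.Prime := ⟨hℓ⟩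
  have hdvd : ℓ ∣ Nat.card N := by
    rcases (hP.to_subgroup N).card_eq_or_dvd with h | h
    · exact absurd (Subgroup.card_eq_one.mp h) hN
    · exact h
  obtain ⟨b, hb, h1b⟩ :=
    (hP.of_equiv ConjAct.toConjAct).exists_fixed_point_of_prime_dvd_card_of_fixed_point
      N hdvd (a := (1 : N)) (fun g => smul_one g)
  have hb1 : (b : P) ≠ 1 := fun h => h1b (Subtype.ext h.symm)
  have hcomm : ∀ g : P, (b : P) * g = g * b := by
    intro g
    have h2 : (ConjAct.toConjAct g • b : N) = b := hb (ConjAct.toConjAct g)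
    have h3 := congrArg (Subtype.val) h2
    rw [ConjAct.Subgroup.val_conj_smul, ConjAct.toConjAct_smul] at h3
    calc (b : P) * g = (g * b * g⁻¹) * g := by rw [h3]
      _ = g * b := by group
  have hd : ℓ ∣ orderOf (b : P) := hP.dvd_orderOf hb1
  refine ⟨(b : P) ^ (orderOf (b : P) / ℓ), N.pow_mem b.2 _, ?_, ?_⟩
  · intro g
    exact (Commute.pow_left (show Commute (b : P) g from hcomm g) _)
  · exact orderOf_pow_orderOf_div (orderOf_pos (b : P)).ne' hd

theorem chain_aux (p : ℕ) [Fact p.Prime] (hC : CStep p) (ℓ : ℕ) (hℓ : ℓ.Prime) (hp : ℓ ≠ p)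
    (Ω : Type) [Field Ω] [Algebra (ZMod p) Ω] (x : Ω) (H : Subgroup (Ω ≃ₐ[ZMod p] Ω))
    (P : Type) [Group P] [Finite P] (ρ : H →* P) (hρ : NHom p ℓ x H ρ) :
    ∀ (n : ℕ) (P' : Type) [Group P'] [Finite P'] (f : P' →* P), Nat.card P' ≤ n →
      Function.Surjective f → IsPGroup ℓ P' →
      ∃ (x' : Ω) (j : ℕ) (H' : Subgroup (Ω ≃ₐ[ZMod p] Ω)),
        x' ^ (ℓ ^ j) = x ∧ H' = H ⊓ Gx p x' ∧
        ∃ ρ' : H' →* P', NHom p ℓ x' H' ρ' ∧
          ∀ (γ : Ω ≃ₐ[ZMod p] Ω) (h : γ ∈ H') (h₁ : γ ∈ H), f (ρ' ⟨γ, h⟩) = ρ ⟨γ, h₁⟩ := by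
  intro n
  induction n with
  | zero =>
    intro P' _ _ f hn hf hP'
    have := Nat.card_pos (α := P')
    omega
  | succ n ih =>
    intro P' _ _ f hn hf hP'
    by_cases hinj : Function.Injective f
    · let e : P' ≃* P := MulEquiv.ofBijective f ⟨hinj, hf⟩
      have he : ∀ y : P, f (e.symm y) = y := fun y => e.apply_symm_apply y
      refine ⟨x, 0, H, by simp, (inf_eq_left.mpr hρ.le).symm, e.symm.toMonoidHom.comp ρ, ?_, ?_⟩
      · obtain ⟨S, hS⟩ := hρ.fin
        refine ⟨hρ.stage, hρ.le, hρ.opn, hρ.mu, hρ.zero, ⟨S, ?_⟩, ?_⟩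
        · intro γ hγ
          show e.symm (ρ γ) = 1
          rw [hS γ hγ, map_one]
        · intro V hV hb γ hγ
          show e.symm (ρ γ) = 1
          rw [hρ.neu V hV hb γ hγ, map_one]
      · intro γ h h₁
        exact he _
    · have hker : f.ker ≠ ⊥ := fun h => hinj ((MonoidHom.ker_eq_bot_iff f).mp h)
      obtain ⟨z, hz, hcen, hord⟩ := exists_central ℓ hℓ P' hP' f.ker hker
      let Z : Subgroup P' := Subgroup.zpowers z
      have hZc : ∀ a ∈ Z, ∀ b : P', a * b = b * a := by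
        intro a ha b
        obtain ⟨k, rfl⟩ := Subgroup.mem_zpowers_iff.mp ha
        exact (Commute.zpow_left (show Commute z b from hcen b) k)
      have hZn : Z.Normal := by
        refine ⟨fun a ha g => ?_⟩
        rw [← hZc a ha g, mul_assoc, mul_inv_cancel, mul_one]
        exact ha
      have hZle : Z ≤ f.ker := by
        rw [Subgroup.zpowers_le]
        exact hz
      have hZcard : Nat.card Z = ℓ := by
        rw [Nat.card_zpowers, hord]
      let f₁ : P' ⧸ Z →* P := QuotientGroup.lift Z f hZle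
      have hf₁ : Function.Surjective f₁ := by
        intro y
        obtain ⟨w, hw⟩ := hf y
        exact ⟨(w : P' ⧸ Z), hw⟩
      have hcard : Nat.card (P' ⧸ Z) ≤ n := by
        have h1 := Subgroup.card_eq_card_quotient_mul_card_subgroup Z
        rw [hZcard] at h1
        have h2 := Nat.card_pos (α := P' ⧸ Z)
        have h3 := hℓ.two_le
        nlinarith
      obtain ⟨x₁, j₁, H₁, hx₁, hH₁, ρ₁, hN₁, hρ₁⟩ :=
        ih (P' ⧸ Z) f₁ hcard hf₁ (hP'.to_quotient Z)
      have hk : (QuotientGroup.mk' Z).ker = Z := QuotientGroup.ker_mk' Z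
      obtain ⟨x', j', hx', ρ', hN', hρ'⟩ :=
        hC ℓ hℓ hp Ω x₁ H₁ (P' ⧸ Z) ρ₁ (hP'.to_quotient Z) hN₁ P' (QuotientGroup.mk' Z)
          (QuotientGroup.mk'_surjective Z) (by rw [hk]; exact hZc) (by rw [hk]; exact hZcard)
      refine ⟨x', j' + j₁, H₁ ⊓ Gx p x', ?_, ?_, ρ', hN', ?_⟩
      · rw [pow_add, pow_mul, hx', hx₁]
      · rw [hH₁]
        ext γ
        simp only [Subgroup.mem_inf, mem_Gx]
        constructor
        · rintro ⟨⟨h1, _⟩, h3⟩
          exact ⟨h1, h3⟩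
        · rintro ⟨h1, h3⟩
          refine ⟨⟨h1, ?_⟩, h3⟩
          rw [← hx', map_pow, h3]
      · intro γ h h₁
        have h2 := hρ' γ h
        have h3 := hρ₁ γ h.1 h₁
        rw [← h3, ← h2]
        rfl

end ChainAux

theorem chainStmt : ChainStmt := by
  intro p _ hC ℓ hℓ hp Ω _ _ x H P _ _ ρ _ hρ P' _ _ f hf hP'
  exact ChainAux.chain_aux p hC ℓ hℓ hp Ω x H P ρ hρ (Nat.card P') P' f le_rfl hf hP'

end MP7Z.EPL
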