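import Pool.Agent.Lib.MP_7f581e_Z.EPL.Spec

/-!
# Package EP-l: conjugate valuation rings, subgroups of given image, common lemmas
-/

set_option autoImplicit false
set_option linter.unusedSectionVars false

namespace MP7Z.EPL.WeakAux

variable {p : ℕ} [Fact p.Prime] {Ω : Type} [Field Ω] [Algebra (ZMod p) Ω]

/-- The valuation ring of all `z` with `g z ∈ V`. -/
def vc (V : ValuationSubring Ω) (g : Ω ≃ₐ[ZMod p] Ω) : ValuationSubring Ω :=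
  V.comap ((g : Ω ≃+* Ω) : Ω →+* Ω)

theorem mem_vc {V : ValuationSubring Ω} {g : Ω ≃ₐ[ZMod p] Ω} {z : Ω} :
    z ∈ vc V g ↔ g z ∈ V := Iff.rfl

theorem vc_ne_top {V : ValuationSubring Ω} (hV : V ≠ ⊤) (g : Ω ≃ₐ[ZMod p] Ω) : vc V g ≠ ⊤ := by
  intro h
  apply hV
  rw [eq_top_iff]
  intro z _
  have h1 : g.symm z ∈ vc V g := by rw [h]; trivial
  rw [mem_vc, AlgEquiv.apply_symm_apply] at h1
  exact h1

theorem val_lt_iff {V : ValuationSubring Ω} {y : Ω} (hy : y ≠ 0) :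
    V.valuation y < 1 ↔ y⁻¹ ∉ V := by
  have h0 : 0 < V.valuation y := by
    rw [zero_lt_iff]
    exact (V.valuation.ne_zero_iff).2 hy
  rw [← ValuationSubring.valuation_le_one_iff, map_inv₀, inv_le_one₀ h0, not_le]

theorem vc_val_lt {V : ValuationSubring Ω} {g : Ω ≃ₐ[ZMod p] Ω} {y : Ω}
    (h : V.valuation (g y) < 1) : (vc V g).valuation y < 1 := by
  by_cases hy : y = 0
  · rw [hy, map_zero]
    exact zero_lt_one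
  · have hg : g y ≠ 0 := (map_ne_zero_iff g g.injective).2 hy
    rw [val_lt_iff hy, mem_vc, map_inv₀, ← val_lt_iff hg]
    exact h

theorem vc_bad {r : ℕ} {y : Ω} {V : ValuationSubring Ω} {g : Ω ≃ₐ[ZMod p] Ω} (hg : g y = y)
    (h : BadV r y V) : BadV r y (vc V g) := by
  rcases h with h | ⟨m, hm, hc, h⟩
  · exact Or.inl (vc_val_lt (by rwa [hg]))
  · exact Or.inr ⟨m, hm, hc, vc_val_lt (by rwa [map_sub, map_pow, map_one, hg])⟩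

theorem cst_map (g : Ω ≃ₐ[ZMod p] Ω) {a : Ω} (ha : a ∈ (Cst p Ω : Set Ω)) :
    g a ∈ (Cst p Ω : Set Ω) := by
  have h1 : IsAlgebraic (ZMod p) a := mem_algebraicClosure_iff.1 ha
  exact mem_algebraicClosure_iff.2 (h1.algHom g.toAlgHom)

theorem inert_conj {V : ValuationSubring Ω} {w : Ω ≃ₐ[ZMod p] Ω} (g : Ω ≃ₐ[ZMod p] Ω)
    (hw : w ∈ Inert p V) : g⁻¹ * w * g ∈ Inert p (vc V g) := by
  refine ⟨fun a ha => ?_, fun f => ?_⟩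
  · change g.symm (w (g a)) = a
    rw [hw.1 (g a) (cst_map g ha), AlgEquiv.symm_apply_apply]
  · rw [mem_vc, mem_vc]
    change g (g.symm (w (g f))) ∈ V ↔ g f ∈ V
    rw [AlgEquiv.apply_symm_apply]
    exact hw.2 (g f)

theorem root_fix {ℓ : ℕ} (hℓ : 0 < ℓ) {γ : Ω ≃ₐ[ZMod p] Ω} (hγ : γ ∈ Fx p (Cst p Ω : Set Ω))
    {ζ : Ω} (hζ : ζ ^ ℓ = 1) : γ ζ = ζ := by
  apply hγ
  have h1 : IsIntegral (ZMod p) ζ := IsIntegral.of_pow hℓ (by rw [hζ]; exact isIntegral_one)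
  exact mem_algebraicClosure_iff.2 h1.isAlgebraic

omit [Fact p.Prime] [Algebra (ZMod p) Ω] in
theorem exists_mu {ℓ : ℕ} (hℓ : 0 < ℓ) : ∃ S : Finset Ω, ∀ ζ : Ω, ζ ^ ℓ = 1 → ζ ∈ S := by
  classical
  refine ⟨(Polynomial.nthRoots ℓ (1 : Ω)).toFinset, fun ζ hζ => ?_⟩
  rw [Multiset.mem_toFinset, Polynomial.mem_nthRoots hℓ, hζ]

/-- The automorphisms of `Gx p x` with `ψ γ ∈ A` which fix the `ℓ`-th roots of unity. -/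
def Hs (x : Ω) {G : Type} [Group G] (ψ : Gx p x →* G) (A : Subgroup G) (ℓ : ℕ) :
    Subgroup (Ω ≃ₐ[ZMod p] Ω) where
  carrier := {γ | ∃ h : γ ∈ Gx p x, ψ ⟨γ, h⟩ ∈ A ∧ ∀ ζ : Ω, ζ ^ ℓ = 1 → γ ζ = ζ}
  mul_mem' := by
    rintro a b ⟨ha, ha1, ha2⟩ ⟨hb, hb1, hb2⟩
    refine ⟨mul_mem ha hb, ?_, fun ζ hζ => ?_⟩
    · have h : (⟨a * b, mul_mem ha hb⟩ : Gx p x) = ⟨a, ha⟩ * ⟨b, hb⟩ := rfl
      rw [h, map_mul]
      exact mul_mem ha1 hb1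
    · change a (b ζ) = ζ
      rw [hb2 ζ hζ, ha2 ζ hζ]
  one_mem' := by
    refine ⟨one_mem _, ?_, fun ζ _ => rfl⟩
    have h : (⟨1, one_mem _⟩ : Gx p x) = 1 := rfl
    rw [h, map_one]
    exact one_mem _
  inv_mem' := by
    rintro a ⟨ha, ha1, ha2⟩
    refine ⟨inv_mem ha, ?_, fun ζ hζ => ?_⟩
    · have h : (⟨a⁻¹, inv_mem ha⟩ : Gx p x) = ⟨a, ha⟩⁻¹ := rfl
      rw [h, map_inv]
      exact inv_mem ha1
    · change a.symm ζ = ζ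
      rw [AlgEquiv.symm_apply_eq]
      exact (ha2 ζ hζ).symm

theorem mem_Hs {x : Ω} {G : Type} [Group G] {ψ : Gx p x →* G} {A : Subgroup G} {ℓ : ℕ}
    {γ : Ω ≃ₐ[ZMod p] Ω} : γ ∈ Hs x ψ A ℓ ↔
      ∃ h : γ ∈ Gx p x, ψ ⟨γ, h⟩ ∈ A ∧ ∀ ζ : Ω, ζ ^ ℓ = 1 → γ ζ = ζ := Iff.rfl

/-- The restriction of `ψ`. -/
def rh (x : Ω) {G : Type} [Group G] (ψ : Gx p x →* G) (A : Subgroup G) (ℓ : ℕ) :
    Hs x ψ A ℓ →* A where
  toFun γ := ⟨ψ ⟨(γ : Ω ≃ₐ[ZMod p] Ω), γ.2.choose⟩, γ.2.choose_spec.1⟩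
  map_one' := Subtype.ext (map_one ψ)
  map_mul' a b := Subtype.ext (map_mul ψ ⟨(a : Ω ≃ₐ[ZMod p] Ω), a.2.choose⟩
    ⟨(b : Ω ≃ₐ[ZMod p] Ω), b.2.choose⟩)

theorem rh_apply {x : Ω} {G : Type} [Group G] {ψ : Gx p x →* G} {A : Subgroup G} {ℓ : ℕ}
    (γ : Hs x ψ A ℓ) (h : (γ : Ω ≃ₐ[ZMod p] Ω) ∈ Gx p x) :
    ((rh x ψ A ℓ γ : A) : G) = ψ ⟨(γ : Ω ≃ₐ[ZMod p] Ω), h⟩ := rfl

theorem eq_one_of_pgroup {G : Type} [Group G] {ℓ : ℕ} (hℓ : ℓ.Prime) (hG : IsPGroup ℓ G) {g : G}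
    (h : ¬ ℓ ∣ orderOf g) : g = 1 := by
  obtain ⟨k, hk⟩ := hG g
  obtain ⟨i, -, hi⟩ := (Nat.dvd_prime_pow hℓ).1 (orderOf_dvd_of_pow_eq_one hk)
  rcases Nat.eq_zero_or_pos i with h0 | h0
  · rw [h0, pow_zero] at hi
    exact orderOf_eq_one_iff.1 hi
  · exact absurd (by rw [hi]; exact dvd_pow_self ℓ h0.ne') h

theorem conj_one {Γ G : Type} [Group Γ] [Group G] (φ : Γ →* G) (g w : Γ) (h : φ w = 1) :
    φ (g⁻¹ * w * g) = 1 := by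
  rw [map_mul, map_mul, h, mul_one, map_inv, inv_mul_cancel]

/-- The invariant (S) for a lift. -/
theorem sinv_lift {x : Ω} {E G : Type} [Group E] [Group G] (f : E →* G) {ℓ : ℕ} (hℓ : ℓ.Prime)
    (hfℓ : ∀ a ∈ f.ker, a ^ ℓ = 1) (ψ₀ : Gx p x →* G) (hS : SInv p x ψ₀) (ψ' : Gx p x →* E)
    (hf : ∀ γ, f (ψ' γ) = ψ₀ γ)
    (hkey : ∀ V : ValuationSubring Ω, V ≠ ⊤ → BadV ℓ x V → ∀ γ : Gx p x,
      (γ : Ω ≃ₐ[ZMod p] Ω) ∈ Inert p V → ∃ n : ℕ, ¬ ℓ ∣ n ∧ ψ' (γ ^ n) = 1) :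
    SInv p x ψ' := by
  intro r hr hrp V hV hb γ hγ hdvd
  by_cases hrl : r = ℓ
  · subst hrl
    obtain ⟨n, hn, h⟩ := hkey V hV hb γ hγ
    rw [map_pow] at h
    exact hn (hdvd.trans (orderOf_dvd_of_pow_eq_one h))
  · have h1 : (ψ' γ) ^ (orderOf (ψ₀ γ) * ℓ) = 1 := by
      rw [pow_mul]
      apply hfℓ
      rw [MonoidHom.mem_ker, map_pow, hf, pow_orderOf_eq_one]
    have h2 := hdvd.trans (orderOf_dvd_of_pow_eq_one h1)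
    rcases (Nat.Prime.dvd_mul hr).1 h2 with h3 | h3
    · exact hS r hr hrp V hV hb γ hγ h3
    · exact hrl ((Nat.prime_dvd_prime_iff_eq hr hℓ).1 h3)

/-- Finite level for a lift. -/
theorem fin_lift (h4 : StabSStmt) {x : Ω} (hst : IsStage p x) (S : Finset Ω) {E : Type} [Group E]
    (ψ' : Gx p x →* E)
    (h : ∀ w : Gx p x, (∀ g : Gx p x, ∀ s ∈ S,
      ((g⁻¹ * w * g : Gx p x) : Ω ≃ₐ[ZMod p] Ω) s = s) → ψ' w = 1) : FinLevel ψ' := by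
  obtain ⟨S', hSS', hS'⟩ := (h4 p Ω x hst).1 S
  refine ⟨S', fun γ hγ => h γ fun g s hs => ?_⟩
  change (g : Ω ≃ₐ[ZMod p] Ω).symm ((γ : Ω ≃ₐ[ZMod p] Ω) ((g : Ω ≃ₐ[ZMod p] Ω) s)) = s
  rw [hγ _ (hS' g g.2 s (hSS' hs)), AlgEquiv.symm_apply_apply]

end MP7Z.EPL.WeakAux
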