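import Pool.Agent.Lib.MP_7f581e_Z.EPL.Spec

/-!
# Package EPL: Gaschütz' theorem in cocycle form
-/

set_option autoImplicit false

namespace MP7Z.EPL.GasAux

open scoped Classical in
/-- Representatives of the cosets, the trivial coset represented by `1`. -/
theorem exists_rep {Γ E G : Type} [Group Γ] [Group E] [Group G] (H : Subgroup Γ)
    (f : E →* G) (ψ : Γ →* G) (hψ : ∀ γ, ∃ e, f e = ψ γ) :
    ∃ (r : Γ ⧸ H → Γ) (ε : Γ ⧸ H → E), (∀ q, (QuotientGroup.mk (r q) : Γ ⧸ H) = q) ∧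
      r (QuotientGroup.mk 1) = 1 ∧ (∀ q, f (ε q) = ψ (r q)) ∧ ε (QuotientGroup.mk 1) = 1 := by
  choose e he using hψ
  refine ⟨fun q => if q = QuotientGroup.mk 1 then 1 else Quotient.out q,
    fun q => if q = QuotientGroup.mk 1 then 1 else e (Quotient.out q), ?_, ?_, ?_, ?_⟩
  · intro q
    by_cases h : q = QuotientGroup.mk 1
    · simp only [h, if_true]
    · simp only [h, if_false]
      exact Quotient.out_eq q
  · simp
  · intro q
    by_cases h : q = QuotientGroup.mk 1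
    · simp [h]
    · simp only [h, if_false]
      exact he _
  · simp

/-- A section compatible with the action of `H` on the right. -/
theorem exists_section {Γ E G : Type} [Group Γ] [Group E] [Group G] (H : Subgroup Γ)
    (f : E →* G) (ψ : Γ →* G) (hψ : ∀ γ, ∃ e, f e = ψ γ) (ρ : H →* E)
    (hρ : ∀ h : H, f (ρ h) = ψ h) :
    ∃ s : Γ → E, (∀ γ, f (s γ) = ψ γ) ∧ (∀ (γ : Γ) (h : H), s (γ * h) = s γ * ρ h) ∧ s 1 = 1 := by
  obtain ⟨r, ε, hr, hr1, hε, hε1⟩ := exists_rep H f ψ hψ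
  have hmem : ∀ γ : Γ, (r (QuotientGroup.mk γ))⁻¹ * γ ∈ H := fun γ =>
    QuotientGroup.eq.1 (hr _)
  refine ⟨fun γ => ε (QuotientGroup.mk γ) * ρ ⟨(r (QuotientGroup.mk γ))⁻¹ * γ, hmem γ⟩, ?_, ?_, ?_⟩
  · intro γ
    rw [map_mul, hε, hρ, ← map_mul]
    congr 1
    group
  · intro γ h
    have h1 : (QuotientGroup.mk (γ * (h : Γ)) : Γ ⧸ H) = QuotientGroup.mk γ :=
      QuotientGroup.mk_mul_of_mem γ h.2
    have h2 : (⟨(r (QuotientGroup.mk (γ * (h : Γ))))⁻¹ * (γ * h), hmem _⟩ : H) =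
        ⟨(r (QuotientGroup.mk γ))⁻¹ * γ, hmem γ⟩ * h := by
      apply Subtype.ext
      change (r (QuotientGroup.mk (γ * (h : Γ))))⁻¹ * (γ * h) =
        (r (QuotientGroup.mk γ))⁻¹ * γ * h
      rw [h1, mul_assoc]
    change ε (QuotientGroup.mk (γ * (h : Γ))) * ρ _ = _
    rw [h2, h1, map_mul, mul_assoc]
  · have h3 : (⟨(r (QuotientGroup.mk (1 : Γ)))⁻¹ * 1, hmem 1⟩ : H) = 1 := by
      apply Subtype.ext
      change (r (QuotientGroup.mk (1 : Γ)))⁻¹ * 1 = 1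
      rw [hr1]
      simp
    change ε (QuotientGroup.mk (1 : Γ)) * ρ _ = 1
    rw [h3, hε1, map_one, one_mul]

end MP7Z.EPL.GasAux

namespace MP7Z.EPL

open GasAux

theorem gasStmt : GasStmt := by
  intro Γ E G _ _ _ H _ ℓ hcop f hexp hcomm ψ hψ ρ hρ
  obtain ⟨s, hs, hsr, hs1⟩ := exists_section H f ψ hψ ρ hρ
  let _ : CommGroup f.ker :=
    { (inferInstance : Group f.ker) with
      mul_comm := fun a b => Subtype.ext (hcomm a a.2 b b.2) }
  let _ : Fintype (Γ ⧸ H) := Subgroup.fintypeQuotientOfFiniteIndex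
  have hcker : ∀ γ δ : Γ, s γ * s δ * (s (γ * δ))⁻¹ ∈ f.ker := by
    intro γ δ
    rw [MonoidHom.mem_ker, map_mul, map_mul, map_inv, hs, hs, hs, ← map_mul, mul_inv_cancel]
  let c : Γ → Γ → f.ker := fun γ δ => ⟨s γ * s δ * (s (γ * δ))⁻¹, hcker γ δ⟩
  have hc : ∀ γ δ, (c γ δ : E) = s γ * s δ * (s (γ * δ))⁻¹ := fun _ _ => rfl
  have hcr : ∀ (γ δ : Γ) (h : H), c γ (δ * h) = c γ δ := by
    intro γ δ h
    apply Subtype.ext
    rw [hc, hc, ← mul_assoc γ δ, hsr, hsr]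
    group
  let r : Γ ⧸ H → Γ := Quotient.out
  have hr : ∀ q, (QuotientGroup.mk (r q) : Γ ⧸ H) = q := fun q => Quotient.out_eq q
  have hcq : ∀ γ δ : Γ, c γ (r (QuotientGroup.mk δ)) = c γ δ := by
    intro γ δ
    have h1 : δ⁻¹ * r (QuotientGroup.mk δ) ∈ H := QuotientGroup.eq.1 (hr _).symm
    have h2 := hcr γ δ ⟨_, h1⟩
    have h3 : δ * (δ⁻¹ * r (QuotientGroup.mk δ)) = r (QuotientGroup.mk δ) := by group
    rw [← h2]
    change _ = c γ (δ * (δ⁻¹ * r (QuotientGroup.mk δ)))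
    rw [h3]
  let b : Γ → f.ker := fun γ => ∏ q : Γ ⧸ H, c γ (r q)
  have hid : ∀ γ δ ε : Γ, c γ δ * c (γ * δ) ε =
      MulAut.conjNormal (s γ) (c δ ε) * c γ (δ * ε) := by
    intro γ δ ε
    apply Subtype.ext
    rw [Subgroup.coe_mul, Subgroup.coe_mul, MulAut.conjNormal_apply, hc, hc, hc, hc, mul_assoc γ δ ε]
    group
  have hperm : ∀ γ δ : Γ, ∏ q : Γ ⧸ H, c γ (δ * r q) = b γ := by
    intro γ δ
    change _ = ∏ q : Γ ⧸ H, c γ (r q)
    apply Fintype.prod_equiv (MulAction.toPerm δ : Equiv.Perm (Γ ⧸ H))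
    intro q
    rw [MulAction.toPerm_apply]
    have h1 : δ • q = (QuotientGroup.mk (δ * r q) : Γ ⧸ H) := by
      conv_lhs => rw [← hr q]
      rfl
    rw [h1, hcq]
  have hbid : ∀ γ δ : Γ, (c γ δ) ^ H.index * b (γ * δ) =
      MulAut.conjNormal (s γ) (b δ) * b γ := by
    intro γ δ
    have h1 : ∏ q : Γ ⧸ H, (c γ δ * c (γ * δ) (r q)) =
        ∏ q : Γ ⧸ H, (MulAut.conjNormal (s γ) (c δ (r q)) * c γ (δ * r q)) :=
      Finset.prod_congr rfl fun q _ => hid γ δ (r q)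
    rw [Finset.prod_mul_distrib, Finset.prod_mul_distrib, Finset.prod_const, hperm,
      Finset.card_univ] at h1
    have h2 : H.index = Fintype.card (Γ ⧸ H) := by
      rw [Subgroup.index, Nat.card_eq_fintype_card]
    rw [h2, map_prod]
    exact h1
  -- Bezout
  obtain ⟨u, v, huv⟩ : ∃ u v : ℤ, (H.index : ℤ) * u + (ℓ : ℤ) * v = 1 := by
    refine ⟨Nat.gcdA H.index ℓ, Nat.gcdB H.index ℓ, ?_⟩
    rw [← Nat.gcd_eq_gcd_ab, hcop]
    rfl
  have hpow : ∀ a : f.ker, (a ^ H.index) ^ u = a := by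
    intro a
    have h1 : a ^ ℓ = 1 := Subtype.ext (by
      rw [Subgroup.coe_pow]
      exact hexp a a.2)
    calc (a ^ H.index) ^ u = a ^ ((H.index : ℤ) * u) := by
          rw [zpow_mul, zpow_natCast]
      _ = a ^ ((H.index : ℤ) * u) * (a ^ ℓ) ^ v := by rw [h1, one_zpow, mul_one]
      _ = a ^ ((H.index : ℤ) * u) * a ^ ((ℓ : ℤ) * v) := by
          rw [zpow_mul a (ℓ : ℤ) v, zpow_natCast]
      _ = a ^ ((H.index : ℤ) * u + (ℓ : ℤ) * v) := (zpow_add _ _ _).symm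
      _ = a := by rw [huv, zpow_one]
  have hmain : ∀ γ δ : Γ, c γ δ * b (γ * δ) ^ u =
      MulAut.conjNormal (s γ) (b δ ^ u) * b γ ^ u := by
    intro γ δ
    have h1 := congrArg (fun t : f.ker => t ^ u) (hbid γ δ)
    simp only [mul_zpow, hpow] at h1
    rw [h1, map_zpow]
  refine ⟨MonoidHom.mk' (fun γ => ((b γ ^ u)⁻¹ : f.ker) * s γ) ?_, ?_, ?_⟩
  · intro γ δ
    have h1 := hmain γ δ
    have h2 : (b (γ * δ) ^ u)⁻¹ =
        (b γ ^ u)⁻¹ * (MulAut.conjNormal (s γ) (b δ ^ u))⁻¹ * c γ δ := by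
      rw [← mul_inv_rev, ← h1]
      group
    rw [h2, Subgroup.coe_mul, Subgroup.coe_mul, hc, Subgroup.coe_inv _ (MulAut.conjNormal _ _),
      MulAut.conjNormal_apply, Subgroup.coe_inv _ (b δ ^ u)]
    group
  · intro γ
    rw [MonoidHom.mk'_apply, map_mul, hs]
    have h1 : f (((b γ ^ u)⁻¹ : f.ker) : E) = 1 := ((b γ ^ u)⁻¹ : f.ker).2
    rw [h1, one_mul]
  · intro w hw
    have hsw : ∀ δ : Γ, s (w * δ) = s δ := by
      intro δ
      obtain ⟨h, hh⟩ := hw δ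
      have h1 := hsr δ ⟨_, h⟩
      rw [hh, mul_one] at h1
      rw [← h1]
      congr 1
      change w * δ = δ * (δ⁻¹ * w * δ)
      group
    have hw1 : s w = 1 := by
      have h1 := hsw 1
      rw [mul_one, hs1] at h1
      exact h1
    have hcw : ∀ δ, c w δ = 1 := by
      intro δ
      apply Subtype.ext
      rw [hc, hsw, hw1]
      simp
    have hbw : b w = 1 := by
      change ∏ q : Γ ⧸ H, c w (r q) = 1
      exact Finset.prod_eq_one fun q _ => hcw _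
    rw [MonoidHom.mk'_apply, hbw, hw1]
    simp

end MP7Z.EPL
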