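import Pool.Agent.Lib.MP_7f581e_Z.EPL.Spec

/-!
# Package EPL: the index of the preimage of a Sylow subgroup inside the kernel of the cyclotomic
character
-/

set_option autoImplicit false

namespace MP7Z.EPL.IdxAux

/-- The kernel of the action on the roots of unity. -/
theorem exists_char (p : ℕ) [Fact p.Prime] (Ω : Type) [Field Ω] [Algebra (ZMod p) Ω]
    [IsSepClosed Ω] (ℓ : ℕ) [Fact ℓ.Prime] (hℓ : ℓ ≠ p) (Γ : Subgroup (Ω ≃ₐ[ZMod p] Ω)) :
    ∃ χ : Γ →* (ZMod ℓ)ˣ, ∀ γ : Γ, χ γ = 1 ↔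
      ∀ ζ : Ω, ζ ^ ℓ = 1 → (γ : Ω ≃ₐ[ZMod p] Ω) ζ = ζ := by
  have hp0 : CharP Ω p := charP_of_injective_algebraMap (algebraMap (ZMod p) Ω).injective p
  have hne : NeZero (ℓ : Ω) := ⟨by
    intro h
    rw [CharP.cast_eq_zero_iff Ω p] at h
    exact hℓ ((Nat.prime_dvd_prime_iff_eq Fact.out Fact.out).1 h).symm⟩
  have hn0 : NeZero ℓ := ⟨(Fact.out : ℓ.Prime).ne_zero⟩
  have hcard : Nat.card (rootsOfUnity ℓ Ω) = ℓ :=
    HasEnoughRootsOfUnity.natCard_rootsOfUnity Ω ℓ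
  have h1ℓ : Fact (1 < ℓ) := ⟨(Fact.out : ℓ.Prime).one_lt⟩
  have hval : (1 : ZMod ℓ).val = 1 := ZMod.val_one ℓ
  refine ⟨(modularCyclotomicCharacter Ω hcard).comp
    ((MulSemiringAction.toRingAut (Ω ≃ₐ[ZMod p] Ω) Ω).comp Γ.subtype), fun γ => ?_⟩
  have hact : ∀ ζ : Ω, (((MulSemiringAction.toRingAut (Ω ≃ₐ[ZMod p] Ω) Ω).comp Γ.subtype) γ :
      Ω ≃+* Ω) ζ = (γ : Ω ≃ₐ[ZMod p] Ω) ζ := fun _ => rfl
  rw [MonoidHom.comp_apply]
  constructor
  · intro h ζ hζ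
    have hu : IsUnit ζ := IsUnit.of_pow_eq_one hζ (Fact.out : ℓ.Prime).ne_zero
    have ht : hu.unit ∈ rootsOfUnity ℓ Ω := by
      rw [mem_rootsOfUnity, ← Units.val_inj, Units.val_pow_eq_pow_val, IsUnit.unit_spec, hζ,
        Units.val_one]
    have h1 := modularCyclotomicCharacter.spec Ω hcard
      (((MulSemiringAction.toRingAut (Ω ≃ₐ[ZMod p] Ω) Ω).comp Γ.subtype) γ) ht
    rw [h, Units.val_one, hval, pow_one, hact, IsUnit.unit_spec] at h1
    exact h1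
  · intro h
    have h1 := modularCyclotomicCharacter.unique Ω hcard
      (((MulSemiringAction.toRingAut (Ω ≃ₐ[ZMod p] Ω) Ω).comp Γ.subtype) γ) (c := 1) (by
        intro t ht
        rw [hval, pow_one, hact]
        apply h
        rw [mem_rootsOfUnity] at ht
        rw [← Units.val_pow_eq_pow_val, ht, Units.val_one])
    exact Units.ext h1.symm

end MP7Z.EPL.IdxAux

namespace MP7Z.EPL

open IdxAux

theorem idxStmt : IdxStmt := by
  intro p _ Ω _ _ x hst ℓ _ hℓ G _ _ ψ hψ P H hH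
  have hsc : IsSepClosed Ω := hst.sepClosed
  obtain ⟨χ, hχ⟩ := exists_char p Ω ℓ hℓ (Gx p x)
  have hHe : H = (P : Subgroup G).comap ψ ⊓ χ.ker := by
    ext γ
    rw [hH, Subgroup.mem_inf, Subgroup.mem_comap, MonoidHom.mem_ker, hχ]
  have hP : (P : Subgroup G).index.Coprime ℓ := by
    rw [Nat.coprime_comm, (Fact.out : ℓ.Prime).coprime_iff_not_dvd]
    exact P.not_dvd_index
  have hA : ((P : Subgroup G).comap ψ).index = (P : Subgroup G).index :=
    Subgroup.index_comap_of_surjective _ hψ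
  have h1 : (χ.ker.relIndex ((P : Subgroup G).comap ψ)) ∣ ℓ - 1 := by
    refine (Subgroup.relIndex_dvd_index_of_normal _ _).trans ?_
    rw [Subgroup.index_ker]
    refine (Subgroup.card_subgroup_dvd_card _).trans ?_
    rw [Nat.card_eq_fintype_card, ZMod.card_units ℓ]
  have h2 : (ℓ - 1).Coprime ℓ := by
    have h3 : 0 < ℓ := (Fact.out : ℓ.Prime).pos
    have h4 : (ℓ - 1).Coprime (ℓ - 1 + 1) := by simp
    rwa [Nat.sub_add_cancel h3] at h4
  have hcop : H.index.Coprime ℓ := by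
    rw [hHe, ← Subgroup.relIndex_mul_index (inf_le_left :
      (P : Subgroup G).comap ψ ⊓ χ.ker ≤ (P : Subgroup G).comap ψ), Subgroup.inf_relIndex_left, hA]
    exact Nat.Coprime.mul_left (Nat.Coprime.coprime_dvd_left h1 h2) hP
  refine ⟨⟨fun h0 => ?_⟩, hcop⟩
  rw [h0, Nat.coprime_zero_left] at hcop
  exact (Fact.out : ℓ.Prime).one_lt.ne' hcop

end MP7Z.EPL
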