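import Pool.Agent.Lib.MP_7f581e_Z.EPL.Spec

/-!
# Finite sets are contained in finite stable sets; open subgroups have finite index
-/

namespace MP7Z.EPL

namespace StabSAux

variable {p : ℕ} [Fact p.Prime] {Ω : Type} [Field Ω] [Algebra (ZMod p) Ω]

theorem fix {x : Ω} {γ : Ω ≃ₐ[ZMod p] Ω} (h : γ ∈ Gx p x) :
    ∀ f ∈ IntermediateField.adjoin (ZMod p) {x}, γ f = f := by
  intro f hf
  induction hf using IntermediateField.adjoin_induction with
  | mem y hy =>
    rw [Set.mem_singleton_iff.1 hy]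
    exact mem_Gx.1 h
  | algebraMap c => exact γ.commutes c
  | add a b _ _ ha hb => rw [map_add, ha, hb]
  | inv a _ ha => rw [map_inv₀, ha]
  | mul a b _ _ ha hb => rw [map_mul, ha, hb]

/-- Extension of scalars. -/
noncomputable def lift {x : Ω} (γ : Ω ≃ₐ[ZMod p] Ω) (h : γ ∈ Gx p x) :
    Ω ≃ₐ[IntermediateField.adjoin (ZMod p) {x}] Ω :=
  { γ with commutes' := fun f => fix h f f.2 }

theorem exists_stable {x : Ω} (hx : IsStage p x) (S : Finset Ω) :
    ∃ S' : Finset Ω, S ⊆ S' ∧ ∀ γ ∈ Gx p x, ∀ s ∈ S', γ s ∈ S' := by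
  classical
  have hsep := hx.sep
  let F₀ := IntermediateField.adjoin (ZMod p) {x}
  have hint : ∀ s : Ω, IsIntegral F₀ s := fun s => Algebra.IsIntegral.isIntegral s
  have hne : ∀ s : Ω, (minpoly F₀ s).map (algebraMap F₀ Ω) ≠ 0 := fun s =>
    Polynomial.map_ne_zero (minpoly.ne_zero (hint s))
  refine ⟨S.biUnion fun s => ((minpoly F₀ s).map (algebraMap F₀ Ω)).roots.toFinset, ?_, ?_⟩
  · intro s hs
    rw [Finset.mem_biUnion]
    refine ⟨s, hs, ?_⟩
    rw [Multiset.mem_toFinset, Polynomial.mem_roots (hne s), Polynomial.IsRoot.def,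
      Polynomial.eval_map_algebraMap]
    exact minpoly.aeval F₀ s
  · intro γ hγ t ht
    rw [Finset.mem_biUnion] at ht ⊢
    obtain ⟨s, hs, ht⟩ := ht
    refine ⟨s, hs, ?_⟩
    rw [Multiset.mem_toFinset, Polynomial.mem_roots (hne s), Polynomial.IsRoot.def,
      Polynomial.eval_map_algebraMap] at ht ⊢
    have h1 : Polynomial.aeval (lift γ hγ t) (minpoly F₀ s) =
        lift γ hγ (Polynomial.aeval t (minpoly F₀ s)) :=
      Polynomial.aeval_algHom_apply (lift γ hγ).toAlgHom t (minpoly F₀ s)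
    rw [ht, map_zero] at h1
    exact h1

/-- The action on a stable finite set. -/
def act {x : Ω} (S' : Finset Ω) (hS' : ∀ γ ∈ Gx p x, ∀ s ∈ S', γ s ∈ S') :
    Gx p x →* Equiv.Perm S' where
  toFun γ :=
    { toFun := fun s => ⟨(γ : Ω ≃ₐ[ZMod p] Ω) s, hS' γ γ.2 s s.2⟩
      invFun := fun s => ⟨((γ⁻¹ : Gx p x) : Ω ≃ₐ[ZMod p] Ω) s, hS' _ (γ⁻¹).2 s s.2⟩
      left_inv := fun s => Subtype.ext ((γ : Ω ≃ₐ[ZMod p] Ω).symm_apply_apply (s : Ω))
      right_inv := fun s => Subtype.ext ((γ : Ω ≃ₐ[ZMod p] Ω).apply_symm_apply (s : Ω)) }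
  map_one' := rfl
  map_mul' := fun _ _ => rfl

end StabSAux

open StabSAux

theorem stabSStmt : StabSStmt := by
  intro p _ Ω _ _ x hx
  refine ⟨exists_stable hx, fun H S hH => ?_⟩
  obtain ⟨S', hSS', hS'⟩ := exists_stable hx S
  have h1 : (act S' hS').ker ≤ H := by
    intro γ hγ
    apply hH
    intro s hs
    rw [MonoidHom.mem_ker] at hγ
    have h2 := congrArg (fun e : Equiv.Perm S' => (e ⟨s, hSS' hs⟩ : Ω)) hγ
    exact h2
  have : (act S' hS').ker.FiniteIndex := Subgroup.finiteIndex_ker _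
  exact Subgroup.finiteIndex_of_le h1

end MP7Z.EPL
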