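import Pool.Agent.Lib.MP_7f581e_Z.EPL.Spec

/-!
# Cor: twisting by a corestriction
-/

set_option autoImplicit false

namespace MP7Z.EPL

namespace CorAux

variable {Γ : Type} [Group Γ] (N : Subgroup Γ) [N.Normal]

theorem nn_mem (γ : Γ) (t : Γ ⧸ N) :
    (t.out)⁻¹ * γ * ((γ : Γ ⧸ N)⁻¹ * t).out ∈ N := by
  rw [← QuotientGroup.eq_one_iff]
  rw [QuotientGroup.mk_mul, QuotientGroup.mk_mul, QuotientGroup.mk_inv, QuotientGroup.out_eq',
    QuotientGroup.out_eq']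
  group

/-- The element `n γ t` of `N`. -/
noncomputable def nn (γ : Γ) (t : Γ ⧸ N) : N :=
  ⟨(t.out)⁻¹ * γ * ((γ : Γ ⧸ N)⁻¹ * t).out, nn_mem N γ t⟩

theorem nn_mul (γ δ : Γ) (t : Γ ⧸ N) :
    nn N (γ * δ) t = nn N γ t * nn N δ ((γ : Γ ⧸ N)⁻¹ * t) := by
  apply Subtype.ext
  show (t.out)⁻¹ * (γ * δ) * (((γ * δ : Γ) : Γ ⧸ N)⁻¹ * t).out =
    ((t.out)⁻¹ * γ * ((γ : Γ ⧸ N)⁻¹ * t).out) *
      ((((γ : Γ ⧸ N)⁻¹ * t).out)⁻¹ * δ * ((δ : Γ ⧸ N)⁻¹ * ((γ : Γ ⧸ N)⁻¹ * t)).out)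
  have h : ((γ * δ : Γ) : Γ ⧸ N)⁻¹ * t = (δ : Γ ⧸ N)⁻¹ * ((γ : Γ ⧸ N)⁻¹ * t) := by
    rw [QuotientGroup.mk_mul, mul_inv_rev, mul_assoc]
  rw [h]
  group

theorem nn_of_mem {w : Γ} (hw : w ∈ N) (t : Γ ⧸ N) :
    ((nn N w t : N) : Γ) = (t.out)⁻¹ * w * t.out := by
  show (t.out)⁻¹ * w * ((w : Γ ⧸ N)⁻¹ * t).out = _
  rw [(QuotientGroup.eq_one_iff w).2 hw, inv_one, one_mul]

end CorAux

open CorAux in
theorem corStmt : CorStmt := by
  classical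
  intro Γ E G _ _ _ N _ _ f hcomm ψ₁ hψ₁ k hk
  letI : CommGroup f.ker :=
    { (inferInstance : Group f.ker) with
      mul_comm := fun a b => Subtype.ext (hcomm a a.2 b b.2) }
  letI : Fintype (Γ ⧸ N) := Fintype.ofFinite _
  set kk : N →* f.ker := k.codRestrict f.ker (fun n => hk n) with hkk
  have hkk_coe : ∀ n : N, ((kk n : f.ker) : E) = k n := fun n => rfl
  set cj : E → f.ker →* f.ker := fun e => (MulAut.conjNormal e : f.ker ≃* f.ker).toMonoidHom with hcj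
  have hcj_coe : ∀ (e : E) (a : f.ker), ((cj e a : f.ker) : E) = e * a * e⁻¹ := fun e a =>
    MulAut.conjNormal_apply e a
  have hcj_mul : ∀ (e e' : E) (a : f.ker), cj (e * e') a = cj e (cj e' a) := by
    intro e e' a
    apply Subtype.ext
    rw [hcj_coe, hcj_coe, hcj_coe]
    group
  have hcj_one : ∀ a : f.ker, cj 1 a = a := by
    intro a
    apply Subtype.ext
    rw [hcj_coe]
    group
  set c : Γ → f.ker := fun γ => ∏ t : Γ ⧸ N, cj (ψ₁ t.out) (kk (nn N γ t)) with hc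
  have hout : ∀ (γ : Γ) (t : Γ ⧸ N),
      ψ₁ t.out = ψ₁ γ * ψ₁ ((γ : Γ ⧸ N)⁻¹ * t).out := by
    intro γ t
    have h1 := hψ₁ _ (nn_mem N γ t)
    rw [map_mul, map_mul, map_inv] at h1
    rw [mul_assoc, inv_mul_eq_one] at h1
    exact h1
  have hcmul : ∀ γ δ : Γ, c (γ * δ) = c γ * cj (ψ₁ γ) (c δ) := by
    intro γ δ
    rw [hc]
    simp only
    rw [map_prod]
    have h1 : ∏ t : Γ ⧸ N, cj (ψ₁ γ) (cj (ψ₁ t.out) (kk (nn N δ t))) =
        ∏ t : Γ ⧸ N, cj (ψ₁ γ) (cj (ψ₁ ((γ : Γ ⧸ N)⁻¹ * t).out)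
          (kk (nn N δ ((γ : Γ ⧸ N)⁻¹ * t)))) := by
      exact (Equiv.prod_comp (Equiv.mulLeft (γ : Γ ⧸ N)⁻¹)
        (fun t => cj (ψ₁ γ) (cj (ψ₁ t.out) (kk (nn N δ t))))).symm
    rw [h1, ← Finset.prod_mul_distrib]
    refine Finset.prod_congr rfl fun t _ => ?_
    rw [nn_mul, map_mul, map_mul, ← hcj_mul, ← hout]
  refine ⟨MonoidHom.mk' (fun γ => (c γ : E) * ψ₁ γ) ?_, ?_, ?_, ?_⟩
  · intro γ δ
    rw [hcmul, map_mul]
    show (c γ : E) * (cj (ψ₁ γ) (c δ) : f.ker) * (ψ₁ γ * ψ₁ δ) = _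
    rw [hcj_coe]
    group
  · intro γ
    show f ((c γ : E) * ψ₁ γ) = f (ψ₁ γ)
    rw [map_mul, (c γ).2, one_mul]
  · intro w hw
    have hwN : w ∈ N := by
      obtain ⟨h, -⟩ := hw 1
      simpa using h
    show (c w : E) * ψ₁ w = 1
    rw [hψ₁ w hwN, mul_one]
    have h1 : c w = 1 := by
      rw [hc]
      refine Finset.prod_eq_one fun t _ => ?_
      obtain ⟨h, hk1⟩ := hw t.out
      have h2 : nn N w t = ⟨_, h⟩ := Subtype.ext (nn_of_mem N hwN t)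
      have h3 : kk (nn N w t) = 1 := by
        rw [h2]
        exact Subtype.ext hk1
      rw [h3, map_one]
    rw [h1]
    rfl
  · intro τ hτ
    show (c τ : E) * ψ₁ τ = k τ
    rw [hψ₁ τ τ.2, mul_one]
    have h1 : c τ = kk τ := by
      rw [hc]
      simp only
      rw [Finset.prod_eq_single (1 : Γ ⧸ N)]
      · have hr : (1 : Γ ⧸ N).out ∈ N := by
          rw [← QuotientGroup.eq_one_iff, QuotientGroup.out_eq']
        rw [hψ₁ _ hr, hcj_one]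
        have h2 : nn N (τ : Γ) 1 = (⟨_, hr⟩ : N)⁻¹ * τ * ⟨_, hr⟩ :=
          Subtype.ext (nn_of_mem N τ.2 1)
        rw [h2, map_mul, map_mul, map_inv, mul_comm (_)⁻¹, mul_assoc, inv_mul_cancel, mul_one]
      · intro t _ ht
        have hr : t.out ∉ N := by
          intro h
          apply ht
          rw [← QuotientGroup.eq_one_iff, QuotientGroup.out_eq'] at h
          exact h
        obtain ⟨h, hk1⟩ := hτ t.out hr
        have h2 : nn N (τ : Γ) t = ⟨_, h⟩ := Subtype.ext (nn_of_mem N τ.2 t)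
        have h3 : kk (nn N (τ : Γ) t) = 1 := by
          rw [h2]
          exact Subtype.ext hk1
        rw [h3, map_one]
      · intro h
        exact absurd (Finset.mem_univ _) h
    rw [h1, hkk_coe]

end MP7Z.EPL
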