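import Pool.Agent.Lib.MP_7f581e_Z.EPL.Spec2

/-!
# The Kummer homomorphism: `KStmt`
-/

namespace MP7Z.EPL

namespace KFinAux

variable {p : ℕ} [Fact p.Prime] {Ω : Type} [Field Ω] [Algebra (ZMod p) Ω]

theorem map_cst (g : Ω ≃ₐ[ZMod p] Ω) {c : Ω} (hc : c ∈ Cst p Ω) : g c ∈ Cst p Ω := by
  rw [mem_algebraicClosure_iff] at hc ⊢
  exact IsAlgebraic.algHom (g : Ω →ₐ[ZMod p] Ω) hc

theorem conj_geo (g : Ω ≃ₐ[ZMod p] Ω) {τ : Ω ≃ₐ[ZMod p] Ω} (hτ : τ ∈ geo p Ω) :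
    g⁻¹ * τ * g ∈ geo p Ω := by
  intro c hc
  change g⁻¹ (τ (g c)) = c
  rw [hτ (g c) (map_cst g hc)]
  exact g.symm_apply_apply c

theorem conj_dec (g : Ω ≃ₐ[ZMod p] Ω) {τ : Ω ≃ₐ[ZMod p] Ω} {V V' : ValuationSubring Ω}
    (hV : ∀ f, f ∈ V' ↔ g f ∈ V) (hτ : τ ∈ Dec p V) : g⁻¹ * τ * g ∈ Dec p V' := by
  intro f
  rw [hV, hV]
  change g (g⁻¹ (τ (g f))) ∈ V ↔ _
  have h : g (g⁻¹ (τ (g f))) = τ (g f) := g.apply_symm_apply _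
  rw [h]
  exact hτ (g f)

/-- The valuation ring `{f | g f ∈ V}`. -/
def cmp (g : Ω ≃ₐ[ZMod p] Ω) (V : ValuationSubring Ω) : ValuationSubring Ω :=
  V.comap (g : Ω →+* Ω)

theorem mem_cmp (g : Ω ≃ₐ[ZMod p] Ω) (V : ValuationSubring Ω) (f : Ω) :
    f ∈ cmp g V ↔ g f ∈ V := Iff.rfl

theorem cmp_ne_top (g : Ω ≃ₐ[ZMod p] Ω) {V : ValuationSubring Ω} (hV : V ≠ ⊤) : cmp g V ≠ ⊤ := by
  intro h
  apply hV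
  rw [eq_top_iff]
  intro f _
  have h1 : g⁻¹ f ∈ cmp g V := by rw [h]; trivial
  rw [mem_cmp] at h1
  have h2 : g (g⁻¹ f) = f := g.apply_symm_apply _
  rwa [h2] at h1

/-- The Kummer homomorphism. -/
theorem exists_kum {ℓ : ℕ} (hℓ : ℓ.Prime) [IsSepClosed Ω] [NeZero (ℓ : Ω)]
    (H : Subgroup (Ω ≃ₐ[ZMod p] Ω)) (hmu : ∀ ζ : Ω, ζ ^ ℓ = 1 → ∀ γ ∈ H, γ ζ = ζ) (y Y : Ω)
    (hY0 : Y ≠ 0) (hY : Y ^ ℓ = y) (hy : ∀ γ ∈ H, γ y = y) :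
    ∃ k : H →* Multiplicative (ZMod ℓ), ∀ γ : H, k γ = 1 ↔ (γ : Ω ≃ₐ[ZMod p] Ω) Y = Y := by
  haveI := Fact.mk hℓ
  haveI : NeZero ℓ := ⟨hℓ.ne_zero⟩
  have hq : ∀ γ : H, ((γ : Ω ≃ₐ[ZMod p] Ω) Y / Y) ^ ℓ = 1 := fun γ => by
    rw [div_pow, ← map_pow, hY, hy γ γ.2, div_self]
    rw [← hY]; exact pow_ne_zero _ hY0
  have hne : ∀ γ : H, (γ : Ω ≃ₐ[ZMod p] Ω) Y / Y ≠ 0 := fun γ h => by
    have h1 := hq γ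
    rw [h, zero_pow hℓ.ne_zero] at h1
    exact zero_ne_one h1
  let χ : H →* rootsOfUnity ℓ Ω := MonoidHom.mk' (fun γ =>
    ⟨Units.mk0 _ (hne γ), by
      rw [mem_rootsOfUnity]
      apply Units.ext
      push_cast
      rw [Units.val_mk0]
      exact hq γ⟩) (fun γ δ => by
    apply Subtype.ext
    apply Units.ext
    change (γ : Ω ≃ₐ[ZMod p] Ω) ((δ : Ω ≃ₐ[ZMod p] Ω) Y) / Y =
      ((γ : Ω ≃ₐ[ZMod p] Ω) Y / Y) * ((δ : Ω ≃ₐ[ZMod p] Ω) Y / Y)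
    have h1 := hmu _ (hq δ) γ γ.2
    rw [map_div₀] at h1
    have h2 : (γ : Ω ≃ₐ[ZMod p] Ω) Y ≠ 0 := (map_ne_zero _).2 hY0
    rw [← h1]
    field_simp)
  have hcard : Nat.card (rootsOfUnity ℓ Ω) = Nat.card (Multiplicative (ZMod ℓ)) := by
    rw [HasEnoughRootsOfUnity.natCard_rootsOfUnity, Nat.card_congr Multiplicative.toAdd,
      Nat.card_zmod]
  let e : rootsOfUnity ℓ Ω ≃* Multiplicative (ZMod ℓ) := mulEquivOfPrimeCardEq (p := ℓ)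
    (HasEnoughRootsOfUnity.natCard_rootsOfUnity Ω ℓ)
    (hcard ▸ HasEnoughRootsOfUnity.natCard_rootsOfUnity Ω ℓ)
  refine ⟨e.toMonoidHom.comp χ, fun γ => ?_⟩
  change e (χ γ) = 1 ↔ _
  rw [map_eq_one_iff e e.injective]
  constructor
  · intro h
    have h1 : ((χ γ : Ωˣ) : Ω) = 1 := by rw [h]; rfl
    have h2 : (γ : Ω ≃ₐ[ZMod p] Ω) Y / Y = 1 := h1
    exact (div_eq_one_iff_eq hY0).1 h2
  · intro h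
    apply Subtype.ext
    apply Units.ext
    change (γ : Ω ≃ₐ[ZMod p] Ω) Y / Y = 1
    rw [h, div_self hY0]

end KFinAux

open KFinAux in
theorem kStmt (h1 : KVStmt) (h2 : KYStmt) (h3 : CstStmt) (h5 : BelStmt)
    (h6 : GalStmt) (h7 : KumUStmt) (h8 : KumRStmt) (h9 : BCStmt) : KStmt := by
  intro p _ Ω _ _ x₁ hst ℓ hℓ hℓp N hN hnorm hopn hmu hzero
  obtain ⟨x₂, V₀, hx₂, hV₀, hbad, hdec, m, hm, hval⟩ := h1 p Ω x₁ hst ℓ hℓ hℓp N hN hnorm hopn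
  haveI := h3 p Ω x₁ hst
  haveI : IsSepClosed Ω := hst.sepClosed
  haveI : CharP Ω p := charP_of_injective_algebraMap (algebraMap (ZMod p) Ω).injective p
  haveI : NeZero (ℓ : Ω) := ⟨fun h => hℓp
    ((Nat.prime_dvd_prime_iff_eq (Fact.out : p.Prime) hℓ).1 ((CharP.cast_eq_zero_iff Ω p ℓ).1 h)).symm⟩
  obtain ⟨hst₂, hle, -, -⟩ := h9 p Ω x₁ hst x₂ ℓ
    ((Nat.coprime_primes hℓ (Fact.out : p.Prime)).2 hℓp) hx₂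
  obtain ⟨S, hS⟩ := hopn
  obtain ⟨K, hK, hFx, hmem, -⟩ := h6 p Ω x₂ hst₂ (N ⊓ Gx p x₂ ⊓ geo p Ω) S
    (by
      rintro γ ⟨⟨-, hγ⟩, hγ'⟩ c hc
      rcases Set.mem_insert_iff.1 hc with rfl | hc
      · exact mem_Gx.1 hγ
      · exact hγ' c hc)
    (by
      intro γ hγ
      have e1 : γ ∈ Gx p x₂ := mem_Gx.2 (hγ x₂ (Or.inl (Set.mem_insert _ _)))
      exact ⟨⟨hS γ (hle e1) fun s hs => hγ s (Or.inr hs), e1⟩,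
        fun c hc => hγ c (Or.inl (Set.mem_insert_of_mem _ hc))⟩)
  obtain ⟨y, hy0, hyfix, hy1, hy2, hy3⟩ := h2 p Ω x₁ hst ℓ hℓ hℓp N hN hnorm ⟨S, hS⟩ hmu hzero x₂ V₀
    hx₂ hV₀ hbad hdec m hm hval K hK hFx hmem
  have hy0' : (y : Ω) ≠ 0 := fun h => hy0 (Subtype.ext h)
  obtain ⟨Y, hY⟩ := IsSepClosed.exists_pow_nat_eq (y : Ω) ℓ
  have hY0 : Y ≠ 0 := by
    rintro rfl
    rw [zero_pow hℓ.ne_zero] at hY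
    exact hy0' hY.symm
  obtain ⟨k, hk⟩ := exists_kum hℓ (N ⊓ Gx p x₂) (fun ζ hζ γ hγ => hmu ζ hζ γ hγ.1) (y : Ω) Y hY0 hY
    hyfix
  refine ⟨x₂, hx₂, k, ⟨{Y}, fun γ hγ => (hk γ).2 (hγ Y (Finset.mem_singleton_self _))⟩, ?_, ?_⟩
  · intro V hV hVbad γ hγ
    rw [hk]
    obtain ⟨v, hv, -, -⟩ := h5 p Ω x₂ hst₂ K hK V hV
    refine h7 p Ω x₂ hst₂ K hK V hV v hv ℓ hℓ.pos y hy0 (hy1 V hV hVbad v hv) Y hY γ ⟨?_, hγ.2⟩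
    rw [hFx]
    exact ⟨γ.2, hγ.1⟩
  · obtain ⟨v₀, hv₀, -, -⟩ := h5 p Ω x₂ hst₂ K hK V₀ hV₀
    haveI : NeZero ℓ := ⟨hℓ.ne_zero⟩
    obtain ⟨ζ, hζ⟩ := HasEnoughRootsOfUnity.exists_primitiveRoot Ω ℓ
    obtain ⟨τ, hτ, hτY⟩ := h8 p Ω x₂ hst₂ K hK V₀ hV₀ v₀ hv₀ ℓ hℓ hℓp y hy0 (hy2 v₀ hv₀) Y hY ζ
      hζ.pow_eq_one
    have hτ1 : τ ∈ N ⊓ Gx p x₂ ⊓ geo p Ω := by
      rw [← hFx]; exact hτ.1
    refine ⟨⟨τ, hτ1.1⟩, hτ1.2, ?_, ?_⟩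
    · intro h
      rw [hk] at h
      have h' : τ Y = Y := h
      rw [hτY] at h'
      have h'' : ζ = 1 := by
        have : ζ * Y = 1 * Y := by rw [h', one_mul]
        exact mul_right_cancel₀ hY0 this
      exact hζ.ne_one hℓ.one_lt h''
    · intro g hg hgN
      have hN1 : g⁻¹ * τ * g ∈ N := by
        have h10 := hnorm g⁻¹ (inv_mem (hle hg)) τ hτ1.1.1
        rwa [inv_inv] at h10
      have hG1 : g⁻¹ * τ * g ∈ Gx p x₂ := mul_mem (mul_mem (inv_mem hg) hτ1.1.2) hg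
      have hgeo : g⁻¹ * τ * g ∈ geo p Ω := conj_geo g hτ1.2
      refine ⟨⟨hN1, hG1⟩, ?_⟩
      rw [hk]
      obtain ⟨v', hv', -, -⟩ := h5 p Ω x₂ hst₂ K hK (cmp g V₀) (cmp_ne_top g hV₀)
      refine h7 p Ω x₂ hst₂ K hK (cmp g V₀) (cmp_ne_top g hV₀) v' hv' ℓ hℓ.pos y hy0
        (hy3 g hg hgN (cmp g V₀) (mem_cmp g V₀) v' hv') Y hY _ ⟨?_, conj_dec g (mem_cmp g V₀) hτ.2⟩
      rw [hFx]
      exact ⟨⟨hN1, hG1⟩, hgeo⟩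

end MP7Z.EPL
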