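import Pool.Agent.Lib.MP_7f581e_Z.EPL.Spec2

/-!
# Package EPL: a totally split place which is not bad for a suitable root
-/

set_option autoImplicit false

namespace MP7Z.EPL.KVAux

variable {p : ℕ} [Fact p.Prime] {Ω : Type} [Field Ω] [Algebra (ZMod p) Ω]

/-- A constant is fixed by a power of the Frobenius map. -/
theorem exists_pow_eq {c : Ω} (hc : c ∈ Cst p Ω) : ∃ m : ℕ, 0 < m ∧ c ^ (p ^ m) = c := by
  have halg : IsAlgebraic (ZMod p) c := mem_algebraicClosure_iff.1 hc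
  have hfd : FiniteDimensional (ZMod p) (IntermediateField.adjoin (ZMod p) {c}) :=
    IntermediateField.adjoin.finiteDimensional halg.isIntegral
  have hfin : Finite (IntermediateField.adjoin (ZMod p) {c}) :=
    Module.finite_of_finite (ZMod p)
  have : Fintype (IntermediateField.adjoin (ZMod p) {c}) := Fintype.ofFinite _
  refine ⟨Module.finrank (ZMod p) (IntermediateField.adjoin (ZMod p) {c}),
    Module.finrank_pos, ?_⟩
  have h1 := FiniteField.pow_card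
    (⟨c, IntermediateField.mem_adjoin_simple_self (ZMod p) c⟩ :
      IntermediateField.adjoin (ZMod p) {c})
  have h2 : Fintype.card (IntermediateField.adjoin (ZMod p) {c}) =
      p ^ Module.finrank (ZMod p) (IntermediateField.adjoin (ZMod p) {c}) := by
    rw [Module.card_eq_pow_finrank (K := ZMod p), ZMod.card]
  rw [h2] at h1
  exact congrArg (fun t : IntermediateField.adjoin (ZMod p) {c} => (t : Ω)) h1

omit [Fact p.Prime] [Algebra (ZMod p) Ω] in
/-- Powers of elements congruent to `1`. -/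
theorem pow_sub_one {V : ValuationSubring Ω} {a : Ω} (h : V.valuation (a - 1) < 1) (k : ℕ) :
    V.valuation (a ^ k - 1) < 1 := by
  have ha : V.valuation a ≤ 1 := by
    have h1 : a = (a - 1) + 1 := by ring
    rw [h1]
    exact V.valuation.map_add_le h.le (by rw [map_one])
  induction k with
  | zero => simp
  | succ k ih =>
    have h2 : a ^ (k + 1) - 1 = a ^ k * (a - 1) + (a ^ k - 1) := by ring
    rw [h2]
    refine V.valuation.map_add_lt ?_ ih
    rw [map_mul, map_pow]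
    calc V.valuation a ^ k * V.valuation (a - 1) ≤ 1 * V.valuation (a - 1) :=
          mul_le_mul_left (pow_le_one' ha k) _
      _ = V.valuation (a - 1) := one_mul _
      _ < 1 := h

end MP7Z.EPL.KVAux

namespace MP7Z.EPL

open KVAux

theorem kVStmt (h1 : SplStmt) (h2 : ResStmt) (h3 : StabSStmt) : KVStmt := by
  intro p _ Ω _ _ x₁ hst ℓ hℓ hℓp N hN hnorm hopn
  have hsc : IsSepClosed Ω := hst.sepClosed
  have hchar : CharP Ω p := charP_of_injective_algebraMap (algebraMap (ZMod p) Ω).injective p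
  have hne : NeZero (ℓ : Ω) := ⟨by
    intro h
    rw [CharP.cast_eq_zero_iff Ω p] at h
    exact hℓp ((Nat.prime_dvd_prime_iff_eq Fact.out hℓ).1 h).symm⟩
  have hn0 : NeZero ℓ := ⟨hℓ.ne_zero⟩
  obtain ⟨S, hS⟩ := hopn
  let N' : Subgroup (Gx p x₁) := N.subgroupOf (Gx p x₁)
  have hN'm : ∀ γ : Gx p x₁, γ ∈ N' ↔ (γ : Ω ≃ₐ[ZMod p] Ω) ∈ N := fun _ => Iff.rfl
  have hN'n : N'.Normal := ⟨fun n hn g => hnorm g g.2 n hn⟩
  have hN'f : N'.FiniteIndex := (h3 p Ω x₁ hst).2 N' S fun γ hγ => hS γ γ.2 hγ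
  have hx0 : x₁ ≠ 0 := by
    rintro rfl
    exact hst.transc isAlgebraic_zero
  obtain ⟨V, hV, hxV, hT, hdec⟩ := h1 p Ω x₁ hst (Gx p x₁ ⧸ N') (QuotientGroup.mk' N')
    ⟨S, fun γ hγ => (QuotientGroup.eq_one_iff γ).2 (hS γ γ.2 hγ)⟩ {x₁} (by
      intro t ht
      rw [Finset.mem_singleton.1 ht]
      exact hx0)
  have hvx : V.valuation x₁ = 1 := hT x₁ (Finset.mem_singleton_self _)
  have hdec' : ∀ γ ∈ Gx p x₁, γ ∈ Dec p V → γ ∈ N := fun γ hγ hγV =>
    (QuotientGroup.eq_one_iff (⟨γ, hγ⟩ : Gx p x₁)).1 (hdec ⟨γ, hγ⟩ hγV)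
  obtain ⟨-, hcu, hres, -⟩ := h2 p Ω x₁ hst V hV
  obtain ⟨c, hc, hxc, -⟩ := hres x₁ hxV
  obtain ⟨m, hm, hcm⟩ := exists_pow_eq hc
  have hxm : V.valuation (x₁ ^ (p ^ m) - x₁) < 1 := by
    have h4 : x₁ ^ (p ^ m) - x₁ = (x₁ - c) ^ (p ^ m) - (x₁ - c) := by
      rw [sub_pow_char_pow, hcm]
      ring
    rw [h4]
    refine V.valuation.map_sub_lt ?_ hxc
    rw [map_pow]
    exact pow_lt_one' hxc (pow_ne_zero _ (Fact.out : p.Prime).ne_zero)
  obtain ⟨x₂, hx₂⟩ := IsSepClosed.exists_pow_nat_eq x₁ ℓ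
  obtain ⟨ζ, hζ⟩ := HasEnoughRootsOfUnity.exists_primitiveRoot Ω ℓ
  have hvx₂ : V.valuation x₂ = 1 := by
    have h5 : V.valuation x₂ ^ ℓ = 1 := by rw [← map_pow, hx₂, hvx]
    exact (pow_eq_one_iff_of_nonneg zero_le (n := ℓ) hℓ.ne_zero).1 h5
  have hζc : ζ ∈ Cst p Ω := by
    have h6 : IsAlgebraic (ZMod p) (ζ ^ ℓ) := by
      rw [hζ.pow_eq_one]
      exact isAlgebraic_one
    exact mem_algebraicClosure_iff.2 (h6.of_pow hℓ.pos)
  have hvζ : V.valuation ζ = 1 := by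
    have h5 : V.valuation ζ ^ ℓ = 1 := by rw [← map_pow, hζ.pow_eq_one, map_one]
    exact (pow_eq_one_iff_of_nonneg zero_le (n := ℓ) hℓ.ne_zero).1 h5
  by_cases hbad : BadV ℓ x₂ V
  · refine ⟨ζ * x₂, V, ?_, hV, ?_, hdec', m, hm, hxm⟩
    · rw [mul_pow, hζ.pow_eq_one, one_mul, hx₂]
    · intro hbad2
      rcases hbad with h7 | ⟨m₁, hm₁, hcop₁, h7⟩
      · rw [hvx₂] at h7
        exact lt_irrefl _ h7
      rcases hbad2 with h8 | ⟨m₂, hm₂, hcop₂, h8⟩
      · rw [map_mul, hvx₂, hvζ, mul_one] at h8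
        exact lt_irrefl _ h8
      have h9 : V.valuation (x₂ ^ (m₁ * m₂) - 1) < 1 := by
        rw [pow_mul]
        exact pow_sub_one h7 m₂
      have h10 : V.valuation ((ζ * x₂) ^ (m₁ * m₂) - 1) < 1 := by
        rw [mul_comm m₁ m₂, pow_mul]
        exact pow_sub_one h8 m₁
      have h11 : V.valuation (ζ ^ (m₁ * m₂) - 1) < 1 := by
        have h12 : ζ ^ (m₁ * m₂) - 1 = ((ζ * x₂) ^ (m₁ * m₂) - 1) -
            ζ ^ (m₁ * m₂) * (x₂ ^ (m₁ * m₂) - 1) := by
          rw [mul_pow]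
          ring
        rw [h12]
        refine V.valuation.map_sub_lt h10 ?_
        rw [map_mul, map_pow, hvζ, one_pow, one_mul]
        exact h9
      have h13 : ζ ^ (m₁ * m₂) = 1 := by
        by_contra h14
        have h15 : ζ ^ (m₁ * m₂) - 1 ∈ Cst p Ω :=
          sub_mem (pow_mem hζc _) (one_mem _)
        have h16 := hcu _ h15 (sub_ne_zero.2 h14)
        rw [h16] at h11
        exact lt_irrefl _ h11
      have h17 : ℓ ∣ m₁ * m₂ := hζ.dvd_of_pow_eq_one _ h13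
      rcases hℓ.dvd_mul.1 h17 with h18 | h18
      · exact hℓ.one_lt.ne' (Nat.Coprime.eq_one_of_dvd (Nat.coprime_comm.1 hcop₁) h18)
      · exact hℓ.one_lt.ne' (Nat.Coprime.eq_one_of_dvd (Nat.coprime_comm.1 hcop₂) h18)
  · exact ⟨x₂, V, hx₂, hV, hbad, hdec', m, hm, hxm⟩

end MP7Z.EPL
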