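import Pool.Agent.Lib.MP_7f581e_Z.EPL.Spec2

/-!
# The element `y`: `KYStmt`
-/

namespace MP7Z.EPL

namespace KYAux

variable {p : ℕ} [Fact p.Prime] {Ω : Type} [Field Ω] [Algebra (ZMod p) Ω]

/-- The valuation ring `{f | g f ∈ V}`. -/
def cmp (g : Ω ≃ₐ[ZMod p] Ω) (V : ValuationSubring Ω) : ValuationSubring Ω :=
  V.comap (g : Ω →+* Ω)

theorem mem_cmp (g : Ω ≃ₐ[ZMod p] Ω) (V : ValuationSubring Ω) (f : Ω) :
    f ∈ cmp g V ↔ g f ∈ V := Iff.rfl

theorem cmp_ne_top (g : Ω ≃ₐ[ZMod p] Ω) {V : ValuationSubring Ω} (hV : V ≠ ⊤) : cmp g V ≠ ⊤ := by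
  intro h
  apply hV
  rw [eq_top_iff]
  intro f _
  have h1 : g⁻¹ f ∈ cmp g V := by rw [h]; trivial
  rw [mem_cmp] at h1
  have h2 : g (g⁻¹ f) = f := g.apply_symm_apply _
  rwa [h2] at h1

theorem val_lt_one_iff (V : ValuationSubring Ω) {f : Ω} (hf : f ≠ 0) :
    V.valuation f < 1 ↔ f⁻¹ ∉ V := by
  rw [← V.valuation_le_one_iff, map_inv₀, not_le]
  have h0 : V.valuation f ≠ 0 := (map_ne_zero _).2 hf
  exact (one_lt_inv₀ (zero_lt_iff.2 h0)).symm

theorem cmp_val (g : Ω ≃ₐ[ZMod p] Ω) (V : ValuationSubring Ω) (f : Ω) :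
    (cmp g V).valuation f < 1 ↔ V.valuation (g f) < 1 := by
  by_cases hf : f = 0
  · subst hf
    rw [map_zero, map_zero, map_zero]
    exact ⟨fun _ => zero_lt_one, fun _ => zero_lt_one⟩
  · rw [val_lt_one_iff _ hf, val_lt_one_iff _ ((map_ne_zero g).2 hf), mem_cmp, map_inv₀]

theorem cmp_bad {ℓ : ℕ} {x : Ω} {g : Ω ≃ₐ[ZMod p] Ω} (hg : g x = x) (V : ValuationSubring Ω) :
    BadV ℓ x (cmp g V) ↔ BadV ℓ x V := by
  unfold BadV
  rw [cmp_val, hg]
  refine or_congr Iff.rfl (exists_congr fun m => and_congr Iff.rfl (and_congr Iff.rfl ?_))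
  rw [cmp_val, map_sub, map_pow, hg, map_one]

end KYAux

open KYAux in
theorem kYStmt (h1 : CStmtPB) (h2 : BelStmt) (h3 : ConjStmt) (h4 : BCStmt) (h5 : LvlStmt) :
    KYStmt := by
  intro p _ Ω _ _ _ x₁ hst ℓ hℓ hℓp N hN hnorm hopn hmu hzero x₂ V₀ hx₂ hV₀ hbad hdec m hm hval K hK
    hFx hmem
  classical
  obtain ⟨hst₂, hle, -, -⟩ := h4 p Ω x₁ hst x₂ ℓ
    ((Nat.coprime_primes hℓ (Fact.out : p.Prime)).2 hℓp) hx₂
  haveI : IsCurveField (Cst p Ω) K := ((h5 p Ω x₂ hst₂).1 K hK).1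
  -- the third claim of *Bel* for all places
  have hbel : ∀ V : ValuationSubring Ω, V ≠ ⊤ → ∀ v : Place (Cst p Ω) K, Below v V →
      ∀ f : K, 0 < v.ord f ↔ V.valuation (f : Ω) < 1 := by
    intro V hV v hv
    obtain ⟨w, -, hw2, hw3⟩ := h2 p Ω x₂ hst₂ K hK V hV
    rw [hw2 v hv]
    exact hw3
  have hbadiff : ∀ V : ValuationSubring Ω, V ≠ ⊤ → ∀ v : Place (Cst p Ω) K, Below v V →
      (Bad ℓ (⟨x₂, hK.mem⟩ : K) v ↔ BadV ℓ x₂ V) := by
    intro V hV v hv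
    unfold Bad BadV
    rw [hbel V hV v hv]
    refine or_congr Iff.rfl (exists_congr fun n => and_congr Iff.rfl (and_congr Iff.rfl ?_))
    rw [hbel V hV v hv]
    push_cast
    rfl
  have hxK : x₁ ∈ K := by rw [← hx₂]; exact pow_mem hK.mem _
  let xx : K := ⟨x₁, hxK⟩ ^ (p ^ m) - ⟨x₁, hxK⟩
  have hxx : (xx : Ω) = x₁ ^ (p ^ m) - x₁ := by
    simp only [xx]
    push_cast
    rfl
  have hxx0 : xx ≠ 0 := by
    intro h
    have h6 : x₁ ^ (p ^ m) - x₁ = 0 := by rw [← hxx, h]; rfl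
    apply hst.transc
    refine ⟨Polynomial.X ^ (p ^ m) - Polynomial.X, ?_, ?_⟩
    · intro h7
      have h8 := congrArg (fun P : Polynomial (ZMod p) => P.coeff 1) h7
      have h9 : 1 < p ^ m := Nat.one_lt_pow hm.ne' (Fact.out : p.Prime).one_lt
      simp only [Polynomial.coeff_sub, Polynomial.coeff_X_pow, Polynomial.coeff_X_one,
        Polynomial.coeff_zero] at h8
      rw [if_neg h9.ne] at h8
      simp at h8
    · rw [map_sub, map_pow, Polynomial.aeval_X, h6]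
  let T : Set (Place (Cst p Ω) K) := {v | 0 < v.ord xx}
  have hT : T.Finite := (finite_ord_ne hxx0).subset fun v hv => ne_of_gt hv
  -- places below conjugates of `V₀` are in `T`
  have hinT : ∀ g ∈ Gx p x₂, ∀ v : Place (Cst p Ω) K, Below v (cmp g V₀) → v ∈ T := by
    intro g hg v hv
    change 0 < v.ord xx
    rw [hbel _ (cmp_ne_top g hV₀) v hv, cmp_val, hxx, map_sub, map_pow, mem_Gx.1 (hle hg)]
    exact hval
  let O : Set (Place (Cst p Ω) K) := {v | ∃ γ ∈ N ⊓ Gx p x₂, Below v (cmp γ V₀)}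
  let D : Place (Cst p Ω) K → ℤ := fun v => if v ∈ O then 1 else 0
  have hD1 : ∀ v, v ∈ O → D v = 1 := fun v hv => if_pos hv
  have hD0 : ∀ v, v ∉ O → D v = 0 := fun v hv => if_neg hv
  have hDfin : {v | D v ≠ 0}.Finite := by
    refine hT.subset fun v hv => ?_
    have hvO : v ∈ O := by
      by_contra h
      exact hv (hD0 v h)
    obtain ⟨γ, hγ, hγv⟩ := hvO
    exact hinT γ hγ.2 v hγv
  have hDinv : ∀ τ : K ≃+* K, (∃ γ ∈ N ⊓ Gx p x₂, ∀ f : K, ((τ f : K) : Ω) = γ (f : Ω)) →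
      ∀ v : Place (Cst p Ω) K, D (v.comap τ) = D v := by
    rintro τ ⟨γ', hγ', hτ⟩ v
    have hτ' : ∀ f : K, ((τ.symm f : K) : Ω) = γ'⁻¹ (f : Ω) := by
      intro f
      have h6 := hτ (τ.symm f)
      rw [RingEquiv.apply_symm_apply] at h6
      rw [h6]
      exact (γ'.symm_apply_apply _).symm
    have hiff : v.comap τ ∈ O ↔ v ∈ O := by
      constructor
      · rintro ⟨γ, hγ, hv⟩
        refine ⟨γ * γ'⁻¹, mul_mem hγ (inv_mem hγ'), fun f => ?_⟩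
        have h6 := hv (τ.symm f)
        rw [Place.comap_ord, RingEquiv.apply_symm_apply, hτ'] at h6
        exact h6
      · rintro ⟨γ, hγ, hv⟩
        refine ⟨γ * γ', mul_mem hγ hγ', fun f => ?_⟩
        rw [Place.comap_ord]
        have h6 := hv (τ f)
        rw [hτ] at h6
        exact h6
    by_cases h : v ∈ O
    · rw [hD1 v h, hD1 _ (hiff.2 h)]
    · rw [hD0 v h, hD0 _ (fun h' => h (hiff.1 h'))]
  -- the neutral trivial homomorphism
  have hN1 : NHom p ℓ x₁ N (1 : N →* Unit) :=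
    { stage := hst
      le := hN
      opn := hopn
      mu := hmu
      zero := hzero
      fin := ⟨∅, fun _ _ => rfl⟩
      neu := fun _ _ _ _ _ => rfl }
  obtain ⟨y, hy0, hyfix, hy⟩ := h1 p ℓ hℓ hℓp Ω x₁ N Unit 1 hN1 x₂ hx₂ K hK hFx hmem T hT D hDfin
    hDinv
  refine ⟨y, hy0, hyfix, ?_, ?_, ?_⟩
  · intro V hV hVbad v hv
    have h6 : Bad ℓ (⟨x₂, hK.mem⟩ : K) v := (hbadiff V hV v hv).2 hVbad
    have h7 : v ∉ O := by
      rintro ⟨γ, hγ, hvγ⟩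
      exact hbad ((cmp_bad (mem_Gx.1 hγ.2) V₀).1
        ((hbadiff _ (cmp_ne_top γ hV₀) v hvγ).1 h6))
    have h8 := hy v (Or.inr h6)
    rwa [hD0 v h7, sub_zero] at h8
  · intro v hv hdvd
    have h6 : v ∈ O := ⟨1, one_mem _, hv⟩
    have h7 := hy v (Or.inl (hinT 1 (one_mem _) v hv))
    rw [hD1 v h6] at h7
    have h8 : (ℓ : ℤ) ∣ 1 := by
      have h9 := dvd_sub hdvd h7
      rwa [sub_sub_cancel] at h9
    have h9 := Int.eq_one_of_dvd_one (Int.natCast_nonneg ℓ) h8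
    exact hℓ.ne_one (by exact_mod_cast h9)
  · intro g hg hgN V' hV' v hv
    have hV'eq : V' = cmp g V₀ := by
      ext f
      rw [hV', mem_cmp]
    subst hV'eq
    have h6 : v ∉ O := by
      rintro ⟨γ, hγ, hvγ⟩
      obtain ⟨δ, hδ, hδ'⟩ := h3 p Ω x₂ hst₂ K hK (cmp g V₀) (cmp γ V₀) (cmp_ne_top g hV₀)
        (cmp_ne_top γ hV₀) (fun f hf => (hv ⟨f, hf⟩).symm.trans (hvγ ⟨f, hf⟩))
      have hδN : δ ∈ N ⊓ Gx p x₂ ⊓ geo p Ω := by rw [← hFx]; exact hδ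
      have h7 : γ * δ * g⁻¹ ∈ Dec p V₀ := by
        intro f
        have h8 := hδ' (g⁻¹ f)
        rw [mem_cmp, mem_cmp] at h8
        have h9 : g (g⁻¹ f) = f := g.apply_symm_apply _
        rw [h9] at h8
        exact h8
      have h8 : γ * δ * g⁻¹ ∈ N := hdec _ (mul_mem (mul_mem (hN hγ.1) (hN hδN.1.1))
        (inv_mem (hle hg))) h7
      apply hgN
      have h9 : g = (γ * δ * g⁻¹)⁻¹ * (γ * δ) := by group
      rw [h9]
      exact mul_mem (inv_mem h8) (mul_mem hγ.1 hδN.1.1)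
    have h7 := hy v (Or.inl (hinT g hg v hv))
    rwa [hD0 v h6, sub_zero] at h7

end MP7Z.EPL
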