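import Pool.Agent.Lib.MP_7f581e_Z.EPL.WeakAux

/-!
# Package EP-l, module Weak: the weak solution with finite level and (S)
-/

set_option autoImplicit false

namespace MP7Z.EPL

open WeakAux

theorem weakStmt (h1 : ChainStmt) (h2 : GasStmt) (h3 : IdxStmt) (h4 : StabSStmt) (h5 : BCStmt) :
    WeakStmt := by
  classical
  intro p hp hC Ω _ _ x G _ _ ψ hψ E _ _ f hf ℓ hℓ hℓp hfℓ hfc
  have hℓF : Fact ℓ.Prime := ⟨hℓ⟩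
  have hψs : Function.Surjective ψ := fun g => by
    obtain ⟨γ, -, h⟩ := hψ.reg g
    exact ⟨γ, h⟩
  obtain ⟨P⟩ : Nonempty (Sylow ℓ G) := inferInstance
  have hPp : IsPGroup ℓ (P : Subgroup G) := P.2
  let H : Subgroup (Ω ≃ₐ[ZMod p] Ω) := Hs x ψ (P : Subgroup G) ℓ
  let ρ : H →* (P : Subgroup G) := rh x ψ (P : Subgroup G) ℓ
  obtain ⟨Sψ, hSψ⟩ := hψ.fin
  obtain ⟨Sμ, hSμ⟩ := exists_mu (Ω := Ω) hℓ.pos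
  have hN : NHom p ℓ x H ρ := by
    refine ⟨hψ.stage, fun γ h => h.choose, ⟨Sψ ∪ Sμ, ?_⟩, fun ζ hζ γ hγ => hγ.choose_spec.2 ζ hζ,
      ?_, ⟨Sψ, fun γ hs => Subtype.ext (hSψ _ hs)⟩, ?_⟩
    · intro γ hγ hs
      refine ⟨hγ, ?_, fun ζ hζ => hs ζ (Finset.mem_union_right _ (hSμ ζ hζ))⟩
      rw [hSψ ⟨γ, hγ⟩ fun s h => hs s (Finset.mem_union_left _ h)]
      exact one_mem _
    · intro V hV hVx γ hγ hI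
      refine ⟨orderOf (ψ ⟨γ, hγ⟩), ?_, pow_mem hγ _, ?_, fun ζ hζ => ?_⟩
      · rw [Nat.coprime_comm, hℓ.coprime_iff_not_dvd]
        exact hψ.inv ℓ hℓ hℓp V hV (Or.inl hVx) ⟨γ, hγ⟩ hI
      · have h : (⟨γ ^ orderOf (ψ ⟨γ, hγ⟩), pow_mem hγ _⟩ : Gx p x) =
            ⟨γ, hγ⟩ ^ orderOf (ψ ⟨γ, hγ⟩) := rfl
        rw [h, map_pow, pow_orderOf_eq_one]
        exact one_mem _
      · exact root_fix hℓ.pos (pow_mem hI.1 _) hζ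
    · intro V hV hb γ hI
      apply eq_one_of_pgroup hℓ hPp
      rw [← Subgroup.orderOf_coe]
      exact hψ.inv ℓ hℓ hℓp V hV hb ⟨γ, γ.2.choose⟩ hI
  -- the preimage of the Sylow subgroup
  let P' : Subgroup E := (P : Subgroup G).comap f
  let fP : P' →* (P : Subgroup G) := f.subgroupComap (P : Subgroup G)
  have hfPs : Function.Surjective fP := f.subgroupComap_surjective_of_surjective _ hf
  have hP'p : IsPGroup ℓ P' := by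
    intro e
    obtain ⟨k, hk⟩ := hPp ⟨f (e : E), e.2⟩
    refine ⟨k + 1, Subtype.ext ?_⟩
    rw [Subgroup.coe_pow, pow_succ, pow_mul]
    apply hfℓ
    rw [MonoidHom.mem_ker, map_pow]
    exact congrArg Subtype.val hk
  obtain ⟨x₁, j, H₁, hx₁, hH₁, ρ₁, hN₁, hρ₁⟩ :=
    h1 p hC ℓ hℓ hℓp Ω x H (P : Subgroup G) ρ hPp hN P' fP hfPs hP'p
  have hcop : (ℓ ^ j).Coprime p :=
    Nat.Coprime.pow_left j ((Nat.coprime_primes hℓ hp.out).2 hℓp)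
  obtain ⟨hst₁, hle, hbad, hgood⟩ := h5 p Ω x hψ.stage x₁ (ℓ ^ j) hcop hx₁
  let ψ₀ : Gx p x₁ →* G := ψ.comp (Subgroup.inclusion hle)
  have hg₀ : GoodR p x₁ ψ₀ := hgood G ψ hψ
  have hψ₀s : Function.Surjective ψ₀ := fun g => by
    obtain ⟨γ, -, h⟩ := hg₀.reg g
    exact ⟨γ, h⟩
  have hψ₀ : ∀ (γ : Ω ≃ₐ[ZMod p] Ω) (h' : γ ∈ Gx p x₁) (h : γ ∈ Gx p x),
      ψ₀ ⟨γ, h'⟩ = ψ ⟨γ, h⟩ := fun _ _ _ => rfl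
  let H₂ : Subgroup (Gx p x₁) := H₁.subgroupOf (Gx p x₁)
  have hmem : ∀ γ : Gx p x₁, γ ∈ H₂ ↔ ψ₀ γ ∈ (P : Subgroup G) ∧
      ∀ ζ : Ω, ζ ^ ℓ = 1 → (γ : Ω ≃ₐ[ZMod p] Ω) ζ = ζ := by
    intro γ
    rw [Subgroup.mem_subgroupOf, hH₁]
    constructor
    · rintro ⟨⟨_, h, h'⟩, -⟩
      exact ⟨h, h'⟩
    · rintro ⟨h, h'⟩
      exact ⟨⟨hle γ.2, h, h'⟩, γ.2⟩
  obtain ⟨hfin, hcopH⟩ := h3 p Ω x₁ hst₁ ℓ hℓF hℓp G ψ₀ hψ₀s P H₂ hmem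
  let ι : H₂ →* H₁ :=
    { toFun := fun γ => ⟨((γ : Gx p x₁) : Ω ≃ₐ[ZMod p] Ω), γ.2⟩
      map_one' := rfl
      map_mul' := fun _ _ => rfl }
  let ρ₂ : H₂ →* E := P'.subtype.comp (ρ₁.comp ι)
  have hρ₂ : ∀ h : H₂, f (ρ₂ h) = ψ₀ h := by
    intro h
    have hm : ((h : Gx p x₁) : Ω ≃ₐ[ZMod p] Ω) ∈ H₁ := h.2
    have hm' : ((h : Gx p x₁) : Ω ≃ₐ[ZMod p] Ω) ∈ H := by
      rw [hH₁] at hm
      exact hm.1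
    exact congrArg Subtype.val (hρ₁ _ hm hm')
  obtain ⟨ψ', hψ'f, hψ'w⟩ :=
    h2 (Gx p x₁) E G H₂ ℓ hcopH f hfℓ hfc ψ₀ (fun γ => hf _) ρ₂ hρ₂
  have hρ₂1 : ∀ (γ : Gx p x₁) (h : γ ∈ H₂), ρ₁ ⟨(γ : Ω ≃ₐ[ZMod p] Ω), h⟩ = 1 →
      ρ₂ ⟨γ, h⟩ = 1 := by
    intro γ h h'
    have h6 : ρ₂ ⟨γ, h⟩ = ((ρ₁ ⟨(γ : Ω ≃ₐ[ZMod p] Ω), h⟩ : P') : E) := rfl
    rw [h6, h']
    rfl
  refine ⟨x₁, j, hx₁, ψ', ?_, ?_, fun γ h' h => by rw [hψ'f, hψ₀ γ h' h]⟩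
  · -- finite level
    obtain ⟨So, hSo⟩ := hN₁.opn
    obtain ⟨Sf, hSf⟩ := hN₁.fin
    apply fin_lift h4 hst₁ (So ∪ Sf)
    intro w hw
    apply hψ'w
    intro g
    have h6 : ((g⁻¹ * w * g : Gx p x₁) : Ω ≃ₐ[ZMod p] Ω) ∈ H₁ :=
      hSo _ (g⁻¹ * w * g).2 fun s hs => hw g s (Finset.mem_union_left _ hs)
    exact ⟨h6, hρ₂1 _ _ (hSf _ fun s hs => hw g s (Finset.mem_union_right _ hs))⟩
  · -- the invariant (S)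
    apply sinv_lift f hℓ hfℓ ψ₀ hg₀.inv ψ' hψ'f
    intro V hV hb γ hI
    refine ⟨orderOf (ψ₀ γ), hg₀.inv ℓ hℓ hℓp V hV hb γ hI, ?_⟩
    apply hψ'w
    intro g
    obtain ⟨w, hw⟩ : ∃ w : Gx p x₁, w = γ ^ orderOf (ψ₀ γ) := ⟨_, rfl⟩
    rw [← hw]
    have hwI : (w : Ω ≃ₐ[ZMod p] Ω) ∈ Inert p V := by
      rw [hw]
      exact pow_mem hI _
    have hwc : ((g⁻¹ * w * g : Gx p x₁) : Ω ≃ₐ[ZMod p] Ω) ∈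
        Inert p (vc V (g : Ω ≃ₐ[ZMod p] Ω)) := by
      rw [Subgroup.coe_mul, Subgroup.coe_mul, Subgroup.coe_inv]
      exact inert_conj (g : Ω ≃ₐ[ZMod p] Ω) hwI
    have hψw : ψ₀ w = 1 := by rw [hw, map_pow, pow_orderOf_eq_one]
    have h7 : ψ₀ (g⁻¹ * w * g) = 1 := conj_one ψ₀ g w hψw
    have h6 : g⁻¹ * w * g ∈ H₂ :=
      (hmem _).2 ⟨by rw [h7]; exact one_mem _, fun ζ hζ => root_fix hℓ.pos hwc.1 hζ⟩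
    refine ⟨h6, hρ₂1 _ h6 ?_⟩
    exact hN₁.neu (vc V (g : Ω ≃ₐ[ZMod p] Ω)) (vc_ne_top hV (g : Ω ≃ₐ[ZMod p] Ω))
      (vc_bad (mem_Gx.1 g.2) hb) ⟨_, h6⟩ hwc

end MP7Z.EPL
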