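import Pool.Agent.Lib.MP_7f581e_Z.CS.All
import Pool.Agent.Lib.MP_7f581e_Z.EPL.RegG
import Pool.Agent.Lib.MP_7f581e_Z.EPL.Gas
import Pool.Agent.Lib.MP_7f581e_Z.EPL.Cor
import Pool.Agent.Lib.MP_7f581e_Z.EPL.Idx
import Pool.Agent.Lib.MP_7f581e_Z.EPL.StabS
import Pool.Agent.Lib.MP_7f581e_Z.EPL.Chain
import Pool.Agent.Lib.MP_7f581e_Z.EPL.Weak
import Pool.Agent.Lib.MP_7f581e_Z.EPL.KV
import Pool.Agent.Lib.MP_7f581e_Z.EPL.KY
import Pool.Agent.Lib.MP_7f581e_Z.EPL.KFin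

/-! # The statements of package EPL without hypotheses -/

namespace MP7Z.EPL

theorem epl_kv : KVStmt := kVStmt br_spl br_res stabSStmt

theorem epl_ky : KYStmt := kYStmt cs_pb br_bel br_conj br_bc br_lvl

theorem epl_k : KStmt := kStmt epl_kv epl_ky br_cst br_bel br_gal br_kumU br_kumR br_bc

theorem epl_weak : WeakStmt := weakStmt chainStmt gasStmt idxStmt stabSStmt br_bc

end MP7Z.EPL
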