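import Pool.Agent.Lib.MP_7f581e_Z.EPL.Spec
import Pool.Agent.Lib.MP_7f581e_Z.CS.SpecB

/-!
# Package EP-l, part 2: the Kummer homomorphism (`KStmt` of `EPL/Spec.lean`)
-/

namespace MP7Z.EPL

/-- **KV** (120 lines).  A totally split place which is not bad for a suitable root `x₂` of `x₁`.
Proof.  `N` as a subgroup of `Gx p x₁` is normal of finite index (*StabS*); *Spl* for the quotient map
`ψ : Gx p x₁ →* Gx p x₁ ⧸ N` (finite level by `hopn`) and `T = {x₁}` (`x₁ ≠ 0`) gives `V₀ ≠ ⊤`, `x₁ ∈ V₀`,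
`V₀.valuation x₁ = 1` and the condition on the decomposition group.  *Res*: `c ∈ Cst` with
`V₀.valuation (x₁ - c) < 1`; `c` is algebraic over `ZMod p`, so `c ^ (p ^ m) = c` with `m > 0` and
`x₁ ^ (p^m) - x₁ = (x₁ - c) ^ (p^m) - (x₁ - c)` has valuation `< 1`.  Let `x₂' ^ ℓ = x₁`
(`IsSepClosed.exists_pow_nat_eq`), and `ζ ∈ Cst`, `ζ ^ ℓ = 1`, `ζ ≠ 1`.  `V₀.valuation x₂' = 1`, so the first
alternative of `BadV` is impossible for `x₂'` and `ζ x₂'`.  If `x₂'` is not bad, take `x₂ = x₂'`.  Otherwise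
`V₀.valuation (x₂' ^ m₁ - 1) < 1`, `ℓ ∤ m₁`; take `x₂ = ζ x₂'`.  If it were bad,
`V₀.valuation ((ζ x₂') ^ m₂ - 1) < 1`, `ℓ ∤ m₂`, then `x₂' ^ (m₁ m₂)` and `ζ ^ (m₁ m₂) x₂' ^ (m₁ m₂)` are
`≡ 1`, so `V₀.valuation (ζ ^ (m₁ m₂) - 1) < 1`, so `ζ ^ (m₁ m₂) = 1` (nonzero constants have valuation `1`,
*Res*), so `ℓ ∣ m₁ m₂`, a contradiction.
*Uses*: Spl, Res, StabS. -/
def KVStmt : Prop :=
  ∀ (p : ℕ) [Fact p.Prime] (Ω : Type) [Field Ω] [Algebra (ZMod p) Ω] (x₁ : Ω), IsStage p x₁ →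
    ∀ (ℓ : ℕ), ℓ.Prime → ℓ ≠ p → ∀ (N : Subgroup (Ω ≃ₐ[ZMod p] Ω)), N ≤ Gx p x₁ →
    (∀ γ ∈ Gx p x₁, ∀ n ∈ N, γ * n * γ⁻¹ ∈ N) →
    (∃ S : Finset Ω, ∀ γ ∈ Gx p x₁, (∀ s ∈ S, γ s = s) → γ ∈ N) →
    ∃ (x₂ : Ω) (V₀ : ValuationSubring Ω), x₂ ^ ℓ = x₁ ∧ V₀ ≠ ⊤ ∧ ¬ BadV ℓ x₂ V₀ ∧
      (∀ γ ∈ Gx p x₁, γ ∈ Dec p V₀ → γ ∈ N) ∧
      ∃ m : ℕ, 0 < m ∧ V₀.valuation (x₁ ^ (p ^ m) - x₁) < 1

/-- **KY** (220 lines).  The element `y`.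
Proof.  `H' = N ⊓ Gx p x₂`.  For `γ : Ω ≃ₐ Ω` write `V₀γ` for the valuation subring `{f | γ f ∈ V₀}`
(`V₀.comap γ`).  `O` = the set of the places `v` of `K` below some `V₀γ`, `γ ∈ H'`;
`T` = the places `v` with `0 < v.ord (x₁ ^ (p^m) - x₁)`, finite (`finite_ord_ne`; the element is not zero as
`x₁` is transcendental; `x₁ = x₂ ^ ℓ ∈ K`).  `O ⊆ T`, since `γ` fixes `x₁` (*Bel*, third claim for `V₀γ`; more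
generally every place below `V₀g`, `g ∈ Gx p x₂`, is in `T`).  `D` = indicator function of `O`.  It is
invariant: if `τ` is the restriction to `K` of `γ' ∈ H'` and `v` is below `V₀γ` then `v.comap τ` is below
`V₀(γ γ')` (`τ f ∈ V₀γ ↔ γ (γ' f) ∈ V₀`), and conversely use `γ'⁻¹`.
*PB* (`CStmtPB`) for `x = x₁`, `H = N`, `ρ` the trivial homomorphism to a trivial group (`NHom`: `hopn`, `hmu`,
`hzero`, the rest is trivial), `x' = x₂`, gives `y`, fixed by `H'`, with `ℓ ∣ v.pord y - D v` for `v ∈ T` and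
for bad `v`.
(i) `V` bad for `x₂`, `v` below `V`: `v` is bad (*Bel*, third claim, for `x₂` and `x₂ ^ m - 1`); `v ∉ O`:
otherwise `v` is below some `V₀γ`, `γ ∈ H'`, which is then bad for `x₂`, so `V₀` is (`γ x₂ = x₂`; compare
`V₀γ.valuation f < 1 ↔ f = 0 ∨ f⁻¹ ∉ V₀γ`).  So `D v = 0`.
(ii) `v` below `V₀`: `v ∈ O`, `D v = 1`, `v ∈ T`.
(iii) `g ∈ Gx p x₂`, `g ∉ N`, `v` below `V' = V₀g`: `v ∈ T`.  If `v ∈ O`, `v` is below `V'' = V₀γ`, `γ ∈ H'`;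
`V'` and `V''` have the same trace on `K`; *Conj*: `δ ∈ Fx p K` with `δ f ∈ V'' ↔ f ∈ V'`.  So
`g f ∈ V₀ ↔ f ∈ V' ↔ γ δ f ∈ V₀` for all `f`, so `γ δ g⁻¹ ∈ Dec p V₀`, and it is in `Gx p x₁`, so in `N`;
`γ ∈ N`, `δ ∈ Fx p K ≤ N`; so `g ∈ N`, a contradiction.  Hence `D v = 0`.
*Uses*: CStmtPB (`CS/SpecB.lean`), Bel, Conj, BC (`IsStage p x₂`). -/
def KYStmt : Prop :=
  ∀ (p : ℕ) [Fact p.Prime] (Ω : Type) [Field Ω] [Algebra (ZMod p) Ω] [IsAlgClosed (Cst p Ω)]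
    (x₁ : Ω), IsStage p x₁ →
    ∀ (ℓ : ℕ), ℓ.Prime → ℓ ≠ p → ∀ (N : Subgroup (Ω ≃ₐ[ZMod p] Ω)), N ≤ Gx p x₁ →
    (∀ γ ∈ Gx p x₁, ∀ n ∈ N, γ * n * γ⁻¹ ∈ N) →
    (∃ S : Finset Ω, ∀ γ ∈ Gx p x₁, (∀ s ∈ S, γ s = s) → γ ∈ N) →
    (∀ ζ : Ω, ζ ^ ℓ = 1 → ∀ γ ∈ N, γ ζ = ζ) →
    (∀ V : ValuationSubring Ω, V ≠ ⊤ → V.valuation x₁ < 1 → ∀ γ ∈ Gx p x₁, γ ∈ Inert p V →
      ∃ a : ℕ, a.Coprime ℓ ∧ γ ^ a ∈ N) →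
    ∀ (x₂ : Ω) (V₀ : ValuationSubring Ω), x₂ ^ ℓ = x₁ → V₀ ≠ ⊤ → ¬ BadV ℓ x₂ V₀ →
      (∀ γ ∈ Gx p x₁, γ ∈ Dec p V₀ → γ ∈ N) →
      ∀ m : ℕ, 0 < m → V₀.valuation (x₁ ^ (p ^ m) - x₁) < 1 →
    ∀ (K : IntermediateField (Cst p Ω) Ω), IsLevel p x₂ K →
      Fx p (K : Set Ω) = N ⊓ Gx p x₂ ⊓ geo p Ω →
      (∀ f, f ∈ K ↔ ∀ γ ∈ N ⊓ Gx p x₂ ⊓ geo p Ω, γ f = f) →
      ∃ y : K, y ≠ 0 ∧ (∀ γ ∈ N ⊓ Gx p x₂, γ (y : Ω) = y) ∧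
        (∀ V : ValuationSubring Ω, V ≠ ⊤ → BadV ℓ x₂ V → ∀ v : Place (Cst p Ω) K, Below v V →
          (ℓ : ℤ) ∣ v.pord y) ∧
        (∀ v : Place (Cst p Ω) K, Below v V₀ → ¬ (ℓ : ℤ) ∣ v.pord y) ∧
        ∀ g ∈ Gx p x₂, g ∉ N → ∀ V' : ValuationSubring Ω, (∀ f, f ∈ V' ↔ g f ∈ V₀) →
          ∀ v : Place (Cst p Ω) K, Below v V' → (ℓ : ℤ) ∣ v.pord y

/-- **KFin** (150 lines): `theorem kStmt : KStmt` (`KStmt` is in `EPL/Spec.lean`).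
Proof.  *Cst*: the constants are algebraically closed.  *KV*: `x₂, V₀, m`.  `IsStage p x₂` (*BC*, `n = ℓ`).
*Gal* for `x₂` and `H = N ⊓ Gx p x₂ ⊓ geo p Ω` (an element fixing `𝔽`, `x₂` and the set `S` of `hopn` fixes
`x₁ = x₂ ^ ℓ`, so it is in `H`) gives the level `K`; *KY*: `y`.  Choose `Y ∈ Ω`, `Y ^ ℓ = y`
(`IsSepClosed.exists_pow_nat_eq`, `ℓ ≠ 0` in `Ω`), `Y ≠ 0`.  For `γ ∈ H' = N ⊓ Gx p x₂`: `(γ Y / Y) ^ ℓ = 1`, and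
`γ ↦ γ Y / Y` is a homomorphism to the group of the `ℓ`-th roots of unity (fixed by `γ ∈ N`), cyclic of order
`ℓ` (`Ω` is separably closed), so isomorphic to `Multiplicative (ZMod ℓ)`: this is `k`; `k γ = 1 ↔ γ Y = Y`.
Finite level: `{Y}`.  Neutral: `V` bad, `γ ∈ H' ∩ Inert p V`: `γ ∈ geo`, so `γ ∈ Fx p K ⊓ Dec p V`; let `v` be
below `V` (*Bel*): `ℓ ∣ v.pord y`, and *KumU* (`n = ℓ`) gives `γ Y = Y`.  `τ`: *KumR* for `V₀` and its place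
`v₀`, and `ζ ≠ 1`, `ζ ^ ℓ = 1`: `τ ∈ Fx p K ⊓ Dec p V₀`, `τ Y = ζ Y`, so `τ ∈ H' ∩ geo`, `k τ ≠ 1`.  For
`g ∈ Gx p x₂`, `g ∉ N`: `g⁻¹ τ g` is in `N` (normality), in `Gx p x₂`, in `geo` (`geo` is normal: `g` preserves
the constants) and in `Dec p V'` for `V' = V₀.comap g = {f | g f ∈ V₀}`, `V' ≠ ⊤`; so it is in
`Fx p K ⊓ Dec p V'`; `v'` below `V'`: `ℓ ∣ v'.pord y`, so it fixes `Y` (*KumU*).
*Uses*: KV, KY, Cst, Lvl, Bel, Gal, KumU, KumR, BC. -/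
def KFinStmt : Prop := KStmt

end MP7Z.EPL
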